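import Pool.Agent.R564.ExtProto

set_option autoImplicit false

open Finset

namespace Pool.Agent.R564.Ext

/-- The syndrome of a bit string: the sum of the (one-based) positions of its ones. -/
def syn {n : ℕ} (z : Fin n → Bool) : ℕ := ∑ i, (i.val + 1) * (if z i then 1 else 0)

/-- Decoding of the difference of two syndromes. -/
def dec (n : ℕ) (a b : ℕ) : Option (Fin n) :=
  if h : 1 ≤ ((a : ℤ) - b).natAbs ∧ ((a : ℤ) - b).natAbs ≤ n then
    some ⟨((a : ℤ) - b).natAbs - 1, by omega⟩
  else none

theorem syn_lt {n t : ℕ} (ht : ∑ i : Fin n, (i.val + 1) < 2 ^ t) (z : Fin n → Bool) :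
    syn z < 2 ^ t := by
  refine lt_of_le_of_lt (sum_le_sum fun i _ => ?_) ht
  split_ifs <;> simp

theorem dec_same {n : ℕ} (z z' : Fin n → Bool) (h : ∀ i, z i = z' i) :
    dec n (syn z) (syn z') = none := by
  have : z = z' := funext h
  rw [this, dec, dif_neg]
  simp

theorem dec_one {n : ℕ} (z z' : Fin n → Bool) (j : Fin n) (hj : z j ≠ z' j)
    (h : ∀ i, i ≠ j → z i = z' i) : dec n (syn z) (syn z') = some j := by
  have e : ((syn z : ℕ) : ℤ) - (syn z' : ℕ) =
      ((j.val : ℤ) + 1) * ((if z j then 1 else 0) - (if z' j then 1 else 0)) := by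
    simp only [syn]
    push_cast
    rw [← sum_sub_distrib, sum_eq_single j]
    · ring
    · intro i _ hi
      rw [h i hi]; ring
    · intro hh; exact absurd (mem_univ _) hh
  have e2 : (((syn z : ℕ) : ℤ) - (syn z' : ℕ)).natAbs = j.val + 1 := by
    rw [e]
    rcases Bool.eq_false_or_eq_true (z j) with h1 | h1 <;>
      rcases Bool.eq_false_or_eq_true (z' j) with h2 | h2
    · exact absurd (h1.trans h2.symm) hj
    · rw [h1, h2]; simp; omega
    · rw [h1, h2]; simp; omega
    · exact absurd (h1.trans h2.symm) hj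
  rw [dec, dif_pos (by rw [e2]; have := j.2; omega)]
  congr 1
  apply Fin.ext
  simp only [e2]
  omega

variable {X Y I : Type} [Fintype I] [Nonempty I]

open Protocol

/-- The block protocol. -/
theorem block (K : ℕ) (hI : Fintype.card I = 2 ^ K) (zA : X → Bool) (iA : X → I) (zB : Y → Bool)
    (gB : Y → I → Bool) (n t t' : ℕ) (ht : ∑ i : Fin n, (i.val + 1) < 2 ^ t)
    (ht' : n + 1 ≤ 2 ^ t') :
    ∃ π : Protocol (Fin n → X) (Fin n → Y) (Fin n → Bool),
      (π.ZeroError fun x y i => ((zA (x i)) != (zB (y i))) || gB (y i) (iA (x i))) ∧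
      ∀ x y, (∀ i, (((zA (x i)) != (zB (y i))) || gB (y i) (iA (x i))) = true) →
        π.cost x y ≤ (t + t' + 2 : ℕ) + (n * K : ℕ)
          - (K : ℝ) * ∑ i, (if zA (x i) ≠ zB (y i) then (1 : ℝ) else 0)
          + ((K : ℝ) + n * (K + 2) / 2) * ∑ i, ∑ j, (if i ≠ j then
              (if zA (x i) ≠ zB (y i) then (1 : ℝ) else 0) *
              (if zA (x j) ≠ zB (y j) then (1 : ℝ) else 0) else 0) := by
  classical
  set Fn : (Fin n → X) → (Fin n → Y) → (Fin n → Bool) :=
    fun x y i => ((zA (x i)) != (zB (y i))) || gB (y i) (iA (x i)) with hFn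
  -- the fall-back protocol: Alice sends everything, Bob answers with the output
  obtain ⟨πf, hπf⟩ : ∃ π : Protocol (Fin n → X) (Fin n → Y) (Fin n → Bool), ∀ x y,
      π.Correct x y (Fn x y) ∧ π.cost x y = ((n * (K + 2) : ℕ) : ℝ) := by
    choose πb hπb using fun m : Fin n → Bool × I =>
      exists_sendB (X := Fin n → X) (Y := Fin n → Y) (O := Fin n → Bool)
      (T := Fin n → Bool) n (by simp)
      (fun y i => ((m i).1 != (zB (y i))) || gB (y i) (m i).2) (fun o => leaf o)
    obtain ⟨π, hπ⟩ := exists_sendA (X := Fin n → X) (Y := Fin n → Y) (O := Fin n → Bool)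
      (T := Fin n → Bool × I) (n * (K + 1)) (by
        simp only [Fintype.card_fun, Fintype.card_prod, Fintype.card_bool, hI, Fintype.card_fin]
        rw [mul_comm n, pow_mul, pow_succ, mul_comm])
      (fun x i => (zA (x i), iA (x i))) πb
    refine ⟨π, fun x y => ⟨?_, ?_⟩⟩
    · apply (hπ x y).1
      apply (hπb _ x y).1
      exact correct_leaf _ _ _
    · rw [(hπ x y).2, (hπb _ x y).2]
      simp only [cost]
      push_cast; ring
  -- the branch where no position is suspect
  obtain ⟨π0, hπ0⟩ : ∃ π : Protocol (Fin n → X) (Fin n → Y) (Fin n → Bool), ∀ x y,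
      π.Correct x y (Fn x y) ∧ π.cost x y = ((n * K : ℕ) : ℝ) + 1 +
        (if ∀ i, gB (y i) (iA (x i)) = true then 0 else ((n * (K + 2) : ℕ) : ℝ)) := by
    obtain ⟨π, hπ⟩ := exists_sendA (X := Fin n → X) (Y := Fin n → Y) (O := Fin n → Bool)
      (T := Fin n → I) (n * K) (by
        simp only [Fintype.card_fun, hI, Fintype.card_fin]
        rw [mul_comm n, pow_mul])
      (fun x i => iA (x i)) (fun w => askB (fun y => decide (∀ i, gB (y i) (w i) = true))
        (fun b : Bool => if b then leaf (fun _ => true) else πf))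
    refine ⟨π, fun x y => ⟨?_, ?_⟩⟩
    · apply (hπ x y).1
      apply correct_askB
      by_cases h : ∀ i, gB (y i) (iA (x i)) = true
      · rw [decide_eq_true h]
        simp only [if_true]
        have : Fn x y = fun _ => true := by
          funext i; simp only [hFn, h i, Bool.or_true]
        rw [this]; exact correct_leaf _ _ _
      · rw [decide_eq_false h]
        simp only [Bool.false_eq_true, if_false]
        exact (hπf x y).1
    · rw [(hπ x y).2, cost_askB]
      by_cases h : ∀ i, gB (y i) (iA (x i)) = true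
      · rw [decide_eq_true h, if_pos h]
        simp only [if_true, cost]
        ring
      · rw [decide_eq_false h, if_neg h]
        simp only [Bool.false_eq_true, if_false, (hπf x y).2]
        ring
  -- the branch where position `j` is suspect
  have h1 : ∀ j : Fin n, ∃ π : Protocol (Fin n → X) (Fin n → Y) (Fin n → Bool), ∀ x y,
      π.Correct x y (Fn x y) ∧ π.cost x y = (((n - 1) * K + 1 : ℕ) : ℝ) + 1 +
        (if (∀ i, i ≠ j → gB (y i) (iA (x i)) = true) ∧ zA (x j) ≠ zB (y j) then 0 else
          ((n * (K + 2) : ℕ) : ℝ)) := by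
    intro j
    obtain ⟨π, hπ⟩ := exists_sendA (X := Fin n → X) (Y := Fin n → Y) (O := Fin n → Bool)
      (T := Bool × ({i : Fin n // i ≠ j} → I)) ((n - 1) * K + 1) (by
        simp only [Fintype.card_prod, Fintype.card_bool, Fintype.card_fun, hI]
        have : Fintype.card {i : Fin n // i ≠ j} = n - 1 := by
          rw [Fintype.card_subtype_compl]; simp
        rw [this, mul_comm (n - 1), ← pow_mul, pow_succ, mul_comm])
      (fun x => (zA (x j), fun i => iA (x i.1)))
      (fun w => askB (fun y => decide ((∀ i : {i : Fin n // i ≠ j}, gB (y i.1) (w.2 i) = true) ∧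
          w.1 ≠ zB (y j)))
        (fun b : Bool => if b then leaf (fun _ => true) else πf))
    refine ⟨π, fun x y => ?_⟩
    have hiff : ((∀ i : {i : Fin n // i ≠ j}, gB (y i.1) (iA (x i.1)) = true) ∧
        zA (x j) ≠ zB (y j)) ↔
        ((∀ i, i ≠ j → gB (y i) (iA (x i)) = true) ∧ zA (x j) ≠ zB (y j)) :=
      ⟨fun h => ⟨fun i hi => h.1 ⟨i, hi⟩, h.2⟩, fun h => ⟨fun i => h.1 i.1 i.2, h.2⟩⟩
    constructor
    · apply (hπ x y).1
      apply correct_askB
      by_cases h : (∀ i : {i : Fin n // i ≠ j}, gB (y i.1) (iA (x i.1)) = true) ∧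
        zA (x j) ≠ zB (y j)
      · rw [decide_eq_true h]
        simp only [if_true]
        have : Fn x y = fun _ => true := by
          funext i
          simp only [hFn]
          by_cases hi : i = j
          · subst hi
            simp [h.2]
          · rw [h.1 ⟨i, hi⟩, Bool.or_true]
        rw [this]; exact correct_leaf _ _ _
      · rw [decide_eq_false h]
        simp only [Bool.false_eq_true, if_false]
        exact (hπf x y).1
    · rw [(hπ x y).2, cost_askB]
      by_cases h : (∀ i : {i : Fin n // i ≠ j}, gB (y i.1) (iA (x i.1)) = true) ∧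
        zA (x j) ≠ zB (y j)
      · rw [decide_eq_true h, if_pos (hiff.1 h)]
        simp only [if_true, cost]
        ring
      · rw [decide_eq_false h, if_neg (fun h' => h (hiff.2 h'))]
        simp only [Bool.false_eq_true, if_false, (hπf x y).2]
        ring
  choose π1 hπ1 using h1
  -- Alice announces the suspect position
  choose π2 hπ2 using fun s : Fin (2 ^ t) =>
    exists_sendA (X := Fin n → X) (Y := Fin n → Y) (O := Fin n → Bool)
      (T := Option (Fin n)) t' (by simpa using ht')
      (fun x => dec n (syn fun i => zA (x i)) s.val)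
      (fun o => Option.elim o π0 π1)
  -- Bob sends his syndrome
  obtain ⟨π, hπ⟩ := exists_sendB (X := Fin n → X) (Y := Fin n → Y) (O := Fin n → Bool)
      (T := Fin (2 ^ t)) t (by simp)
      (fun y => ⟨syn fun i => zB (y i), syn_lt ht _⟩) π2
  have hcor : ∀ x y, π.Correct x y (Fn x y) := by
    intro x y
    apply (hπ x y).1
    apply (hπ2 _ x y).1
    cases hd : dec n (syn fun i => zA (x i)) (syn fun i => zB (y i)) with
    | none => exact (hπ0 x y).1
    | some j => exact (hπ1 j x y).1
  refine ⟨π, fun x y τ hτ => hcor x y τ hτ, fun x y hall => ?_⟩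
  rw [(hπ x y).2, (hπ2 _ x y).2]
  simp only
  -- the error pattern
  set N : Fin n → ℝ := fun i => if zA (x i) ≠ zB (y i) then (1 : ℝ) else 0 with hN
  have hN0 : ∀ i, 0 ≤ N i := by intro i; simp only [hN]; split_ifs <;> norm_num
  set E : Finset (Fin n) := univ.filter fun i => zA (x i) ≠ zB (y i) with hE
  have hsumN : ∑ i, N i = (E.card : ℝ) := by
    simp only [hN, hE]
    rw [← sum_filter]; simp
  have hpair : ∑ i, ∑ j, (if i ≠ j then N i * N j else 0) = (E.card : ℝ) * ((E.card : ℝ) - 1) := by
    have h1 : ∀ i, ∑ j, (if i ≠ j then N i * N j else 0) = N i * (E.card : ℝ) - N i := by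
      intro i
      have h2 : ∀ j, (if i ≠ j then N i * N j else 0) = N i * N j - (if i = j then N i else 0) := by
        intro j
        by_cases hij : i = j
        · subst hij
          simp only [ne_eq, not_true_eq_false, if_false, if_true, hN]
          split_ifs <;> norm_num
        · simp [hij]
      simp only [h2, sum_sub_distrib, ← mul_sum, hsumN, sum_ite_eq, mem_univ, if_true]
    simp only [h1, sum_sub_distrib, ← sum_mul, hsumN]
    ring
  rw [hpair, hsumN]
  have hKn : ((n - 1 : ℕ) : ℝ) * K ≤ (n : ℝ) * K := by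
    apply mul_le_mul_of_nonneg_right _ (Nat.cast_nonneg K)
    exact_mod_cast Nat.sub_le n 1
  have hworst : (Option.elim (dec n (syn fun i => zA (x i)) (syn fun i => zB (y i))) π0 π1).cost x y
      ≤ (n * K : ℕ) + 2 + ((n * (K + 2) : ℕ) : ℝ) := by
    have hnn : (0 : ℝ) ≤ ((n * (K + 2) : ℕ) : ℝ) := Nat.cast_nonneg _
    cases hd : dec n (syn fun i => zA (x i)) (syn fun i => zB (y i)) with
    | none =>
      simp only [Option.elim, (hπ0 x y).2]
      split_ifs <;> linarith
    | some j =>
      simp only [Option.elim, (hπ1 j x y).2]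
      push_cast at hKn ⊢
      push_cast at hnn
      split_ifs <;> linarith
  have hKc : (0 : ℝ) ≤ K := Nat.cast_nonneg K
  have hnc : (0 : ℝ) ≤ n := Nat.cast_nonneg n
  rcases Nat.lt_or_ge E.card 2 with hsmall | hbig
  · interval_cases hc : E.card
    · -- no error
      have hE0 : E = ∅ := card_eq_zero.1 hc
      have heq : ∀ i, zA (x i) = zB (y i) := by
        intro i
        by_contra hne
        have : i ∈ E := by rw [hE, mem_filter]; exact ⟨mem_univ _, hne⟩
        rw [hE0] at this; simp at this
      have hg : ∀ i, gB (y i) (iA (x i)) = true := by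
        intro i
        have := hall i
        rw [heq i] at this
        simpa using this
      rw [dec_same _ _ heq]
      simp only [Option.elim, (hπ0 x y).2, if_pos hg]
      push_cast
      linarith
    · -- one error
      obtain ⟨j, hj⟩ := card_eq_one.1 hc
      have hjE : zA (x j) ≠ zB (y j) := by
        have : j ∈ E := by rw [hj]; exact mem_singleton_self j
        rw [hE, mem_filter] at this; exact this.2
      have heq : ∀ i, i ≠ j → zA (x i) = zB (y i) := by
        intro i hi
        by_contra hne
        have : i ∈ E := by rw [hE, mem_filter]; exact ⟨mem_univ _, hne⟩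
        rw [hj, mem_singleton] at this; exact hi this
      have hg : ∀ i, i ≠ j → gB (y i) (iA (x i)) = true := by
        intro i hi
        have := hall i
        rw [heq i hi] at this
        simpa using this
      rw [dec_one _ _ j hjE heq]
      simp only [Option.elim, (hπ1 j x y).2, if_pos (And.intro hg hjE)]
      have hn1 : 1 ≤ n := by have := j.2; omega
      push_cast [Nat.cast_sub hn1]
      linarith
  · have hb : (2 : ℝ) ≤ (E.card : ℝ) := by exact_mod_cast hbig
    set c : ℝ := (E.card : ℝ)
    push_cast at hworst ⊢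
    have h1 : (K : ℝ) * c ≤ (K : ℝ) * (c * (c - 1)) :=
      mul_le_mul_of_nonneg_left (by nlinarith) hKc
    have h2 : (n : ℝ) * (K + 2) / 2 * 2 ≤ (n : ℝ) * (K + 2) / 2 * (c * (c - 1)) :=
      mul_le_mul_of_nonneg_left (by nlinarith) (by positivity)
    nlinarith

end Pool.Agent.R564.Ext
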