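import Pool.Agent.R564.ExtLower
import Pool.Agent.R564.ExtBlock

set_option autoImplicit false

open Finset

namespace Pool.Agent.R564.Ext

section product

variable {X Y : Type} [Fintype X] [Fintype Y]

/-- Expectations of products under the product distribution. -/
theorem sum_prod_dist (n : ℕ) (f : Fin n → X → Y → ℝ) :
    ∑ x : Fin n → X, ∑ y : Fin n → Y, ∏ i, f i (x i) (y i) = ∏ i, ∑ a, ∑ b, f i a b := by
  classical
  have h1 : ∀ i, ∑ a, ∑ b, f i a b = ∑ p : X × Y, f i p.1 p.2 := by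
    intro i; rw [Fintype.sum_prod_type]
  simp only [h1]
  rw [Finset.prod_univ_sum, Fintype.piFinset_univ]
  rw [← Equiv.sum_comp (Equiv.arrowProdEquivProdArrow (Fin n) (fun _ => X) (fun _ => Y)).symm]
  rw [Fintype.sum_prod_type]
  rfl

theorem sum_dist_one (n : ℕ) (μ : X → Y → ℝ) (h1 : ∑ x, ∑ y, μ x y = 1) :
    ∑ x : Fin n → X, ∑ y : Fin n → Y, ∏ i, μ (x i) (y i) = 1 := by
  rw [sum_prod_dist n fun _ => μ]
  simp [h1]

theorem sum_dist_single (n : ℕ) (μ N : X → Y → ℝ) (δ : ℝ) (h1 : ∑ x, ∑ y, μ x y = 1)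
    (hN : ∑ x, ∑ y, μ x y * N x y = δ) (i : Fin n) :
    ∑ x : Fin n → X, ∑ y : Fin n → Y, (∏ k, μ (x k) (y k)) * N (x i) (y i) = δ := by
  classical
  have h : ∀ (x : Fin n → X) (y : Fin n → Y), (∏ k, μ (x k) (y k)) * N (x i) (y i) =
      ∏ k, (μ (x k) (y k) * (if k = i then N (x k) (y k) else 1)) := by
    intro x y
    rw [prod_mul_distrib, prod_ite_eq' univ i (fun k => N (x k) (y k)), if_pos (mem_univ i)]
  simp only [h]
  rw [sum_prod_dist n fun k a b => μ a b * (if k = i then N a b else 1)]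
  have h2 : ∀ k, ∑ a, ∑ b, μ a b * (if k = i then N a b else 1) = if k = i then δ else 1 := by
    intro k
    by_cases hk : k = i
    · simp only [if_pos hk, hN]
    · simp only [if_neg hk, mul_one, h1]
  simp only [h2]
  rw [prod_ite_eq' univ i (fun _ => δ), if_pos (mem_univ i)]

theorem sum_dist_pair (n : ℕ) (μ N : X → Y → ℝ) (δ : ℝ) (h1 : ∑ x, ∑ y, μ x y = 1)
    (hN : ∑ x, ∑ y, μ x y * N x y = δ) (i j : Fin n) (hij : i ≠ j) :
    ∑ x : Fin n → X, ∑ y : Fin n → Y,
      (∏ k, μ (x k) (y k)) * (N (x i) (y i) * N (x j) (y j)) = δ * δ := by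
  classical
  have h : ∀ (x : Fin n → X) (y : Fin n → Y),
      (∏ k, μ (x k) (y k)) * (N (x i) (y i) * N (x j) (y j)) =
      ∏ k, (μ (x k) (y k) * ((if k = i then N (x k) (y k) else 1) *
        (if k = j then N (x k) (y k) else 1))) := by
    intro x y
    rw [prod_mul_distrib, prod_mul_distrib, prod_ite_eq' univ i (fun k => N (x k) (y k)),
      if_pos (mem_univ i), prod_ite_eq' univ j (fun k => N (x k) (y k)), if_pos (mem_univ j)]
  simp only [h]
  rw [sum_prod_dist n fun k a b => μ a b * ((if k = i then N a b else 1) *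
        (if k = j then N a b else 1))]
  have h2 : ∀ k, ∑ a, ∑ b, μ a b * ((if k = i then N a b else 1) *
        (if k = j then N a b else 1)) = (if k = i then δ else 1) * (if k = j then δ else 1) := by
    intro k
    by_cases hk : k = i
    · have hk' : k ≠ j := fun hh => hij (hk.symm.trans hh)
      simp only [if_pos hk, if_neg hk', mul_one, hN]
    · by_cases hk' : k = j
      · simp only [if_neg hk, if_pos hk', one_mul, hN]
      · simp only [if_neg hk, if_neg hk', mul_one, h1]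
  simp only [h2]
  rw [prod_mul_distrib, prod_ite_eq' univ i (fun _ => δ), if_pos (mem_univ i),
    prod_ite_eq' univ j (fun _ => δ), if_pos (mem_univ j)]

end product

variable {X Y U V : Type} [Fintype X] [Fintype Y] [Fintype U] [Fintype V]

theorem sum_MM (δ : ℝ) (G : U → V → Bool) [Nonempty U] [Nonempty V]
    (hG1 : ∑ u, ∑ v, (if G u v then (1 : ℝ) else 0) =
      (Fintype.card U : ℝ) * (Fintype.card V : ℝ) / 2)
    (eX : X ≃ Bool × U) (eY : Y ≃ Bool × V) (f : Bool → Bool → ℝ) :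
    ∑ x, ∑ y, MM eX eY δ G x y * f (eX x).1 (eY y).1 =
      (1 - δ) / 2 * (f false false + f true true) + δ / 2 * (f false true + f true false) := by
  classical
  have pU : (0 : ℝ) < (Fintype.card U : ℝ) := by exact_mod_cast Fintype.card_pos
  have pV : (0 : ℝ) < (Fintype.card V : ℝ) := by exact_mod_cast Fintype.card_pos
  have pn := mul_pos pU pV
  rw [← Equiv.sum_comp eX.symm]
  have : ∀ x, ∑ y, MM eX eY δ G (eX.symm x) y * f (eX (eX.symm x)).1 (eY y).1 =
      ∑ y, mu δ G x y * f x.1 y.1 := by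
    intro x
    rw [← Equiv.sum_comp eY.symm]
    simp only [MM, Equiv.apply_symm_apply]
  simp only [this]
  rw [Fintype.sum_prod_type]
  have h2 : ∀ z, ∑ u, ∑ y : Bool × V, mu δ G (z, u) y * f z y.1 =
      ∑ z', ∑ u, ∑ v, mu δ G (z, u) (z', v) * f z z' := by
    intro z
    simp_rw [Fintype.sum_prod_type]
    exact sum_comm
  simp only [h2]
  have h3 : ∀ z, ∑ u, ∑ v, mu δ G (z, u) (z, v) * f z z = (1 - δ) / 2 * f z z := by
    intro z
    have e : ∀ u v, mu δ G (z, u) (z, v) * f z z =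
        (1 - δ) / ((Fintype.card U : ℝ) * (Fintype.card V : ℝ)) * f z z *
          (if G u v then (1 : ℝ) else 0) := by
      intro u v
      simp only [mu, if_true]
      split_ifs <;> ring
    simp only [e, ← mul_sum, hG1]
    field_simp
  have h4 : ∀ z z', z ≠ z' → ∑ u, ∑ v, mu δ G (z, u) (z', v) * f z z' = δ / 2 * f z z' := by
    intro z z' hz
    have e : ∀ u v, mu δ G (z, u) (z', v) * f z z' =
        δ / (2 * ((Fintype.card U : ℝ) * (Fintype.card V : ℝ))) * f z z' := by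
      intro u v
      simp only [mu, if_neg hz]
    simp only [e, sum_const, card_univ, nsmul_eq_mul]
    field_simp
  simp only [Fintype.sum_bool]
  rw [h3 true, h3 false, h4 true false (by decide), h4 false true (by decide)]
  ring

omit [Fintype X] [Fintype Y] in
theorem MM_nonneg (δ : ℝ) (hδ0 : 0 ≤ δ) (hδ1 : δ ≤ 1) (G : U → V → Bool)
    (eX : X ≃ Bool × U) (eY : Y ≃ Bool × V) (x : X) (y : Y) : 0 ≤ MM eX eY δ G x y := by
  have : 0 ≤ 1 - δ := by linarith
  simp only [MM, mu]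
  split_ifs <;> positivity

theorem MM_isDist (δ : ℝ) (hδ0 : 0 ≤ δ) (hδ1 : δ ≤ 1) (G : U → V → Bool)
    [Nonempty U] [Nonempty V]
    (hG1 : ∑ u, ∑ v, (if G u v then (1 : ℝ) else 0) =
      (Fintype.card U : ℝ) * (Fintype.card V : ℝ) / 2)
    (eX : X ≃ Bool × U) (eY : Y ≃ Bool × V) : IsDist (MM eX eY δ G) := by
  refine ⟨fun x y => MM_nonneg δ hδ0 hδ1 G eX eY x y, ?_⟩
  have := sum_MM δ G hG1 eX eY (fun _ _ => 1)
  simp only [mul_one] at this
  rw [this]; ring

/-- The expected cost of the block protocol. -/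
theorem block_avg {I : Type} [Fintype I] [Nonempty I] (K : ℕ) (hI : Fintype.card I = 2 ^ K)
    (δ : ℝ) (hδ0 : 0 ≤ δ) (hδ1 : δ ≤ 1) (G : U → V → Bool) [Nonempty U] [Nonempty V]
    (iA : U → I) (gB : V → I → Bool) (hGi : ∀ u v, G u v = gB v (iA u))
    (hG1 : ∑ u, ∑ v, (if G u v then (1 : ℝ) else 0) =
      (Fintype.card U : ℝ) * (Fintype.card V : ℝ) / 2)
    (eX : X ≃ Bool × U) (eY : Y ≃ Bool × V) (n t t' : ℕ)
    (ht : ∑ i : Fin n, (i.val + 1) < 2 ^ t) (ht' : n + 1 ≤ 2 ^ t') :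
    ∃ π : Protocol (Fin n → X) (Fin n → Y) (Fin n → Bool),
      π.ZeroError (tensor (FF eX eY G) n) ∧
      ∑ x, ∑ y, (∏ i, MM eX eY δ G (x i) (y i)) * π.cost x y ≤
        ((t + t' + 2 : ℕ) + (n * K : ℕ)) - (K : ℝ) * (n * δ)
          + ((K : ℝ) + n * (K + 2) / 2) * (n * (n - 1) * (δ * δ)) := by
  classical
  obtain ⟨π, hπ, hc⟩ := block K hI (fun x : X => (eX x).1) (fun x => iA (eX x).2)
    (fun y : Y => (eY y).1) (fun y => gB (eY y).2) n t t' ht ht'
  refine ⟨π, ?_, ?_⟩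
  · intro x y τ hτ
    rw [hπ x y τ hτ]
    funext i
    simp only [tensor, FF, hGi]
  set μ := MM eX eY δ G with hμ
  set N : X → Y → ℝ := fun x y => if (eX x).1 ≠ (eY y).1 then (1 : ℝ) else 0 with hN
  have h1 : ∑ x, ∑ y, μ x y = 1 := (MM_isDist δ hδ0 hδ1 G hG1 eX eY).2
  have hNs : ∑ x, ∑ y, μ x y * N x y = δ := by
    have := sum_MM δ G hG1 eX eY (fun z z' => if z ≠ z' then (1 : ℝ) else 0)
    rw [hμ, hN]
    simp only
    rw [this]
    simp
    ring
  have hpt : ∀ (x : Fin n → X) (y : Fin n → Y), (∏ i, μ (x i) (y i)) * π.cost x y ≤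
      (∏ i, μ (x i) (y i)) * ((((t + t' + 2 : ℕ) : ℝ) + (n * K : ℕ))
          - (K : ℝ) * ∑ i, N (x i) (y i)
          + ((K : ℝ) + n * (K + 2) / 2) * ∑ i, ∑ j, (if i ≠ j then
              N (x i) (y i) * N (x j) (y j) else 0)) := by
    intro x y
    by_cases hz : (∏ i, μ (x i) (y i)) = 0
    · rw [hz, zero_mul, zero_mul]
    · have hnn : 0 ≤ ∏ i, μ (x i) (y i) :=
        prod_nonneg fun i _ => MM_nonneg δ hδ0 hδ1 G eX eY _ _
      apply mul_le_mul_of_nonneg_left _ hnn
      apply hc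
      intro i
      by_contra hne
      apply hz
      apply prod_eq_zero (mem_univ i)
      rw [hμ, MM]
      apply mu_eq_zero
      rw [hGi]
      simpa using hne
  refine (sum_le_sum fun x _ => sum_le_sum fun y _ => hpt x y).trans (le_of_eq ?_)
  have e : ∀ (x : Fin n → X) (y : Fin n → Y),
      (∏ i, μ (x i) (y i)) * ((((t + t' + 2 : ℕ) : ℝ) + (n * K : ℕ))
          - (K : ℝ) * ∑ i, N (x i) (y i)
          + ((K : ℝ) + n * (K + 2) / 2) * ∑ i, ∑ j, (if i ≠ j then
              N (x i) (y i) * N (x j) (y j) else 0)) =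
      (((t + t' + 2 : ℕ) : ℝ) + (n * K : ℕ)) * (∏ i, μ (x i) (y i))
          - (K : ℝ) * ∑ i, ((∏ k, μ (x k) (y k)) * N (x i) (y i))
          + ((K : ℝ) + n * (K + 2) / 2) * ∑ i, ∑ j, (if i ≠ j then
              (∏ k, μ (x k) (y k)) * (N (x i) (y i) * N (x j) (y j)) else 0) := by
    intro x y
    have e1 : ∀ i j : Fin n, (if i ≠ j then
              (∏ k, μ (x k) (y k)) * (N (x i) (y i) * N (x j) (y j)) else 0) =
        (∏ k, μ (x k) (y k)) * (if i ≠ j then N (x i) (y i) * N (x j) (y j) else 0) := by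
      intro i j; split_ifs <;> ring
    simp only [e1, ← mul_sum]
    ring
  simp only [e]
  have s1 : ∀ i : Fin n, ∑ x : Fin n → X, ∑ y : Fin n → Y,
      (∏ k, μ (x k) (y k)) * N (x i) (y i) = δ := sum_dist_single n μ N δ h1 hNs
  have s2 : ∀ i j : Fin n, ∑ x : Fin n → X, ∑ y : Fin n → Y, (if i ≠ j then
      (∏ k, μ (x k) (y k)) * (N (x i) (y i) * N (x j) (y j)) else 0) =
      if i ≠ j then δ * δ else 0 := by
    intro i j
    by_cases hij : i = j
    · simp [hij]
    · simp only [ne_eq, hij, not_false_eq_true, if_true]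
      exact sum_dist_pair n μ N δ h1 hNs i j hij
  have s3 : ∑ i : Fin n, ∑ j : Fin n, (if i ≠ j then δ * δ else 0) =
      n * (n - 1) * (δ * δ) := by
    have : ∀ i : Fin n, ∑ j : Fin n, (if i ≠ j then δ * δ else 0) = (n - 1) * (δ * δ) := by
      intro i
      have h2 : ∀ j : Fin n, (if i ≠ j then δ * δ else 0) = δ * δ - (if i = j then δ * δ else 0) := by
        intro j; by_cases h : i = j <;> simp [h]
      simp only [h2, sum_sub_distrib, sum_const, card_univ, Fintype.card_fin, nsmul_eq_mul,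
        sum_ite_eq, mem_univ, if_true]
      ring
    simp only [this, sum_const, card_univ, Fintype.card_fin, nsmul_eq_mul]
    ring
  have lin : ∀ (A B C : (Fin n → X) → (Fin n → Y) → ℝ) (c₀ c₁ c₂ : ℝ),
      ∑ x, ∑ y, (c₀ * A x y - c₁ * B x y + c₂ * C x y) =
        c₀ * ∑ x, ∑ y, A x y - c₁ * ∑ x, ∑ y, B x y + c₂ * ∑ x, ∑ y, C x y := by
    intro A B C c₀ c₁ c₂
    simp only [sum_add_distrib, sum_sub_distrib, ← mul_sum]
  rw [lin (fun x y => ∏ k, μ (x k) (y k)) (fun x y => ∑ i, ((∏ k, μ (x k) (y k)) * N (x i) (y i)))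
    (fun x y => ∑ i, ∑ j, (if i ≠ j then
              (∏ k, μ (x k) (y k)) * (N (x i) (y i) * N (x j) (y j)) else 0))]
  rw [sum_dist_one n μ h1]
  have t1 : ∑ x : Fin n → X, ∑ y : Fin n → Y, ∑ i, (∏ k, μ (x k) (y k)) * N (x i) (y i) =
      n * δ := by
    have : ∀ x : Fin n → X, ∑ y : Fin n → Y, ∑ i, (∏ k, μ (x k) (y k)) * N (x i) (y i) =
        ∑ i, ∑ y : Fin n → Y, (∏ k, μ (x k) (y k)) * N (x i) (y i) := fun x => sum_comm
    simp only [this]
    rw [sum_comm]
    simp only [s1, sum_const, card_univ, Fintype.card_fin, nsmul_eq_mul]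
  have t2 : ∑ x : Fin n → X, ∑ y : Fin n → Y, ∑ i, ∑ j, (if i ≠ j then
      (∏ k, μ (x k) (y k)) * (N (x i) (y i) * N (x j) (y j)) else 0) =
      n * (n - 1) * (δ * δ) := by
    rw [← s3]
    simp only [← s2]
    have : ∀ x : Fin n → X, ∑ y : Fin n → Y, ∑ i, ∑ j, (if i ≠ j then
      (∏ k, μ (x k) (y k)) * (N (x i) (y i) * N (x j) (y j)) else 0) =
        ∑ i, ∑ j, ∑ y : Fin n → Y, (if i ≠ j then
      (∏ k, μ (x k) (y k)) * (N (x i) (y i) * N (x j) (y j)) else 0) := by
      intro x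
      rw [sum_comm]
      refine sum_congr rfl fun i _ => sum_comm
    simp only [this]
    rw [sum_comm]
    refine sum_congr rfl fun i _ => sum_comm
  rw [t1, t2]
  ring

end Pool.Agent.R564.Ext
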