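import Pool.Agent.R564.ExtDefs

set_option autoImplicit false

open Finset

namespace Pool.Agent.R564.Ext

namespace Protocol

variable {X Y O : Type}

theorem sum_transcript_leaf (o : O) (f : (leaf o : Protocol X Y O).Transcript → ℝ) :
    ∑ τ, f τ = f () := by
  change ∑ τ : Unit, f τ = f ()
  simp

theorem sum_transcript_alice (p : X → Set.Icc (0 : ℝ) 1) (t₀ t₁ : Protocol X Y O)
    (f : (alice p t₀ t₁).Transcript → ℝ) :
    ∑ τ, f τ = ∑ τ : t₀.Transcript, f (Sum.inl τ) + ∑ τ : t₁.Transcript, f (Sum.inr τ) :=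
  Fintype.sum_sum_type (α₁ := t₀.Transcript) (α₂ := t₁.Transcript) f

theorem sum_transcript_bob (p : Y → Set.Icc (0 : ℝ) 1) (t₀ t₁ : Protocol X Y O)
    (f : (bob p t₀ t₁).Transcript → ℝ) :
    ∑ τ, f τ = ∑ τ : t₀.Transcript, f (Sum.inl τ) + ∑ τ : t₁.Transcript, f (Sum.inr τ) :=
  Fintype.sum_sum_type (α₁ := t₀.Transcript) (α₂ := t₁.Transcript) f

theorem sum_transcript_coin (p : Set.Icc (0 : ℝ) 1) (t₀ t₁ : Protocol X Y O)
    (f : (coin p t₀ t₁).Transcript → ℝ) :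
    ∑ τ, f τ = ∑ τ : t₀.Transcript, f (Sum.inl τ) + ∑ τ : t₁.Transcript, f (Sum.inr τ) :=
  Fintype.sum_sum_type (α₁ := t₀.Transcript) (α₂ := t₁.Transcript) f

theorem Icc_nonneg (p : Set.Icc (0 : ℝ) 1) : 0 ≤ (p : ℝ) := p.2.1
theorem Icc_compl_nonneg (p : Set.Icc (0 : ℝ) 1) : 0 ≤ 1 - (p : ℝ) := sub_nonneg.2 p.2.2

/-- The transcript probabilities sum to one. -/
theorem sum_prob (π : Protocol X Y O) (x : X) (y : Y) : ∑ τ, π.prob x y τ = 1 := by
  induction π with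
  | leaf o => rw [sum_transcript_leaf]; rfl
  | alice p t₀ t₁ h₀ h₁ =>
    rw [sum_transcript_alice]
    simp only [prob, Sum.elim_inl, Sum.elim_inr]
    rw [← mul_sum, ← mul_sum, h₀, h₁]; ring
  | bob p t₀ t₁ h₀ h₁ =>
    rw [sum_transcript_bob]
    simp only [prob, Sum.elim_inl, Sum.elim_inr]
    rw [← mul_sum, ← mul_sum, h₀, h₁]; ring
  | coin p t₀ t₁ h₀ h₁ =>
    rw [sum_transcript_coin]
    simp only [prob, Sum.elim_inl, Sum.elim_inr]
    rw [← mul_sum, ← mul_sum, h₀, h₁]; ring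

/-- The rectangle property. -/
theorem rectangle (π : Protocol X Y O) :
    ∃ (a : π.Transcript → X → ℝ) (b : π.Transcript → Y → ℝ),
      (∀ τ x, 0 ≤ a τ x) ∧ (∀ τ y, 0 ≤ b τ y) ∧ ∀ x y τ, π.prob x y τ = a τ x * b τ y := by
  induction π with
  | leaf o =>
    exact ⟨fun _ _ => 1, fun _ _ => 1, fun _ _ => zero_le_one, fun _ _ => zero_le_one,
      fun x y τ => by simp [prob]⟩
  | alice p t₀ t₁ h₀ h₁ =>
    obtain ⟨a₀, b₀, ha₀, hb₀, e₀⟩ := h₀
    obtain ⟨a₁, b₁, ha₁, hb₁, e₁⟩ := h₁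
    refine ⟨Sum.elim (fun τ x => (1 - (p x : ℝ)) * a₀ τ x) (fun τ x => (p x : ℝ) * a₁ τ x),
      Sum.elim b₀ b₁, ?_, ?_, ?_⟩
    · rintro (τ | τ) x
      · exact mul_nonneg (Icc_compl_nonneg _) (ha₀ _ _)
      · exact mul_nonneg (Icc_nonneg _) (ha₁ _ _)
    · rintro (τ | τ) y
      · exact hb₀ _ _
      · exact hb₁ _ _
    · rintro x y (τ | τ)
      · simp only [prob, Sum.elim_inl, e₀]; ring
      · simp only [prob, Sum.elim_inr, e₁]; ring
  | bob p t₀ t₁ h₀ h₁ =>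
    obtain ⟨a₀, b₀, ha₀, hb₀, e₀⟩ := h₀
    obtain ⟨a₁, b₁, ha₁, hb₁, e₁⟩ := h₁
    refine ⟨Sum.elim a₀ a₁,
      Sum.elim (fun τ y => (1 - (p y : ℝ)) * b₀ τ y) (fun τ y => (p y : ℝ) * b₁ τ y), ?_, ?_, ?_⟩
    · rintro (τ | τ) y
      · exact ha₀ _ _
      · exact ha₁ _ _
    · rintro (τ | τ) x
      · exact mul_nonneg (Icc_compl_nonneg _) (hb₀ _ _)
      · exact mul_nonneg (Icc_nonneg _) (hb₁ _ _)
    · rintro x y (τ | τ)
      · simp only [prob, Sum.elim_inl, e₀]; ring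
      · simp only [prob, Sum.elim_inr, e₁]; ring
  | coin p t₀ t₁ h₀ h₁ =>
    obtain ⟨a₀, b₀, ha₀, hb₀, e₀⟩ := h₀
    obtain ⟨a₁, b₁, ha₁, hb₁, e₁⟩ := h₁
    refine ⟨Sum.elim (fun τ x => (1 - (p : ℝ)) * a₀ τ x) (fun τ x => (p : ℝ) * a₁ τ x),
      Sum.elim b₀ b₁, ?_, ?_, ?_⟩
    · rintro (τ | τ) x
      · exact mul_nonneg (Icc_compl_nonneg _) (ha₀ _ _)
      · exact mul_nonneg (Icc_nonneg _) (ha₁ _ _)
    · rintro (τ | τ) y
      · exact hb₀ _ _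
      · exact hb₁ _ _
    · rintro x y (τ | τ)
      · simp only [prob, Sum.elim_inl, e₀]; ring
      · simp only [prob, Sum.elim_inr, e₁]; ring

theorem prob_nonneg (π : Protocol X Y O) (x : X) (y : Y) (τ : π.Transcript) :
    0 ≤ π.prob x y τ := by
  obtain ⟨a, b, ha, hb, e⟩ := π.rectangle
  rw [e]; exact mul_nonneg (ha _ _) (hb _ _)

theorem cost_nonneg (π : Protocol X Y O) (x : X) (y : Y) : 0 ≤ π.cost x y := by
  induction π with
  | leaf o => exact le_refl _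
  | alice p t₀ t₁ h₀ h₁ =>
    have := mul_nonneg (Icc_compl_nonneg (p x)) h₀
    have := mul_nonneg (Icc_nonneg (p x)) h₁
    simp only [cost]; linarith
  | bob p t₀ t₁ h₀ h₁ =>
    have := mul_nonneg (Icc_compl_nonneg (p y)) h₀
    have := mul_nonneg (Icc_nonneg (p y)) h₁
    simp only [cost]; linarith
  | coin p t₀ t₁ h₀ h₁ =>
    have := mul_nonneg (Icc_compl_nonneg p) h₀
    have := mul_nonneg (Icc_nonneg p) h₁
    simp only [cost]; linarith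

end Protocol

end Pool.Agent.R564.Ext
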