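import Mathlib

set_option autoImplicit false

open Finset

namespace Pool.Agent.R564.Ext

/-- A two-party communication protocol in which Alice holds an input in `X`, Bob an input in `Y`,
and whose transcript determines an output in `O`.  It is a finite binary tree.
* `leaf o`: the protocol stops with output `o`;
* `alice p t₀ t₁`: Alice sends one bit, equal to `1` with probability `p x` (her private
  randomness; `x` is her input); the protocol continues with `t₁` if the bit is `1`, and with `t₀`
  if it is `0`;
* `bob p t₀ t₁`: the same with the roles of the two players exchanged;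
* `coin p t₀ t₁`: a public coin, equal to `1` with probability `p`, is tossed (this costs no
  communication). -/
inductive Protocol (X Y O : Type) : Type
  | leaf (o : O) : Protocol X Y O
  | alice (p : X → Set.Icc (0 : ℝ) 1) (t₀ t₁ : Protocol X Y O) : Protocol X Y O
  | bob (p : Y → Set.Icc (0 : ℝ) 1) (t₀ t₁ : Protocol X Y O) : Protocol X Y O
  | coin (p : Set.Icc (0 : ℝ) 1) (t₀ t₁ : Protocol X Y O) : Protocol X Y O

namespace Protocol

variable {X Y O : Type}

/-- The transcripts of a protocol: the leaves of its tree, that is, the sequences of all bits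
exchanged and of all public coins. -/
def Transcript : Protocol X Y O → Type
  | leaf _ => Unit
  | alice _ t₀ t₁ => t₀.Transcript ⊕ t₁.Transcript
  | bob _ t₀ t₁ => t₀.Transcript ⊕ t₁.Transcript
  | coin _ t₀ t₁ => t₀.Transcript ⊕ t₁.Transcript

/-- A protocol has finitely many transcripts. -/
instance fintypeTranscript : (π : Protocol X Y O) → Fintype π.Transcript
  | leaf _ => inferInstanceAs (Fintype Unit)
  | alice _ t₀ t₁ =>
    letI := fintypeTranscript t₀
    letI := fintypeTranscript t₁
    inferInstanceAs (Fintype (t₀.Transcript ⊕ t₁.Transcript))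
  | bob _ t₀ t₁ =>
    letI := fintypeTranscript t₀
    letI := fintypeTranscript t₁
    inferInstanceAs (Fintype (t₀.Transcript ⊕ t₁.Transcript))
  | coin _ t₀ t₁ =>
    letI := fintypeTranscript t₀
    letI := fintypeTranscript t₁
    inferInstanceAs (Fintype (t₀.Transcript ⊕ t₁.Transcript))

/-- `π.prob x y τ` is the probability that the protocol `π`, run on the inputs `x` and `y`,
produces the transcript `τ`. -/
noncomputable def prob : (π : Protocol X Y O) → X → Y → π.Transcript → ℝ
  | leaf _, _, _ => fun _ => 1
  | alice p t₀ t₁, x, y =>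
    Sum.elim (fun τ => (1 - (p x : ℝ)) * t₀.prob x y τ) (fun τ => (p x : ℝ) * t₁.prob x y τ)
  | bob p t₀ t₁, x, y =>
    Sum.elim (fun τ => (1 - (p y : ℝ)) * t₀.prob x y τ) (fun τ => (p y : ℝ) * t₁.prob x y τ)
  | coin p t₀ t₁, x, y =>
    Sum.elim (fun τ => (1 - (p : ℝ)) * t₀.prob x y τ) (fun τ => (p : ℝ) * t₁.prob x y τ)

/-- The output attached to a transcript. -/
def out : (π : Protocol X Y O) → π.Transcript → O
  | leaf o => fun _ => o
  | alice _ t₀ t₁ => Sum.elim t₀.out t₁.out
  | bob _ t₀ t₁ => Sum.elim t₀.out t₁.out
  | coin _ t₀ t₁ => Sum.elim t₀.out t₁.out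

/-- `π.cost x y` is the expected number of bits exchanged by the players on the inputs `x`, `y`
(the expectation is over the private and the public randomness). -/
noncomputable def cost : Protocol X Y O → X → Y → ℝ
  | leaf _, _, _ => 0
  | alice p t₀ t₁, x, y => 1 + (1 - (p x : ℝ)) * t₀.cost x y + (p x : ℝ) * t₁.cost x y
  | bob p t₀ t₁, x, y => 1 + (1 - (p y : ℝ)) * t₀.cost x y + (p y : ℝ) * t₁.cost x y
  | coin p t₀ t₁, x, y => (1 - (p : ℝ)) * t₀.cost x y + (p : ℝ) * t₁.cost x y

/-- `π` computes `f` with zero error: on every pair of inputs, and for every outcome of the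
randomness, the output is correct. -/
def ZeroError (π : Protocol X Y O) (f : X → Y → O) : Prop :=
  ∀ x y τ, π.prob x y τ ≠ 0 → π.out τ = f x y

/-- The external information cost `I_μ(Π; XY)` of `π`: the Shannon mutual information, in bits,
between the transcript and the pair of inputs, when the latter has distribution `μ`. -/
noncomputable def extInfo [Fintype X] [Fintype Y] (π : Protocol X Y O) (μ : X → Y → ℝ) : ℝ :=
  ∑ x, ∑ y, ∑ τ, μ x y * π.prob x y τ *
    Real.logb 2 (π.prob x y τ / ∑ x', ∑ y', μ x' y' * π.prob x' y' τ)

end Protocol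

/-- `μ` is a probability distribution on `X × Y`. -/
def IsDist {X Y : Type} [Fintype X] [Fintype Y] (μ : X → Y → ℝ) : Prop :=
  (∀ x y, 0 ≤ μ x y) ∧ ∑ x, ∑ y, μ x y = 1

/-- The zero-error external information complexity `IC^ext(F, 0, μ)`: the infimum of
`I_μ(Π; XY)` over all protocols `Π` computing `F` with zero error. -/
noncomputable def ICext {X Y : Type} [Fintype X] [Fintype Y] (F : X → Y → Bool)
    (μ : X → Y → ℝ) : ℝ :=
  sInf {r | ∃ π : Protocol X Y Bool, π.ZeroError F ∧ r = π.extInfo μ}

/-- The task `F^n`: computing `F` on `n` independent coordinates. -/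
def tensor {X Y : Type} (F : X → Y → Bool) (n : ℕ) (x : Fin n → X) (y : Fin n → Y) :
    Fin n → Bool :=
  fun i => F (x i) (y i)

/-- The zero-error expected communication complexity of `F^n` under the product distribution
`μ^n`: the infimum, over all protocols computing `F^n` with zero error, of the expected number of
bits exchanged. -/
noncomputable def avgCC {X Y : Type} [Fintype X] [Fintype Y] (F : X → Y → Bool)
    (μ : X → Y → ℝ) (n : ℕ) : ℝ :=
  sInf {r | ∃ π : Protocol (Fin n → X) (Fin n → Y) (Fin n → Bool), π.ZeroError (tensor F n) ∧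
    r = ∑ x, ∑ y, (∏ i, μ (x i) (y i)) * π.cost x y}

end Pool.Agent.R564.Ext
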