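import Mathlib

set_option autoImplicit false

open Finset

namespace Pool.Agent.R564.Ext

/-- The index (evaluation) function, with a dummy part in the first argument. -/
def idx {I D : Type} (u : I × D) (v : I → Bool) : Bool := v u.1

theorem idx_balanced {I D : Type} [Fintype I] [DecidableEq I] [Fintype D] :
    ∑ u : I × D, ∑ v : I → Bool, (if idx u v then (1 : ℝ) else 0) =
      (Fintype.card (I × D) : ℝ) * (Fintype.card (I → Bool) : ℝ) / 2 := by
  have h : ∀ u : I × D, ∑ v : I → Bool, (if idx u v then (1 : ℝ) else 0) =
      (Fintype.card (I → Bool) : ℝ) / 2 := by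
    intro u
    have h1 : ∑ v : I → Bool, (if idx u v then (1 : ℝ) else 0) =
        ∑ v : I → Bool, (if idx u v then (0 : ℝ) else 1) := by
      let e : (I → Bool) ≃ (I → Bool) :=
        { toFun := fun v => Function.update v u.1 (!(v u.1))
          invFun := fun v => Function.update v u.1 (!(v u.1))
          left_inv := by intro v; simp
          right_inv := by intro v; simp }
      rw [← Equiv.sum_comp e]
      refine sum_congr rfl fun v _ => ?_
      simp only [idx, e, Equiv.coe_fn_mk, Function.update_self]
      rcases Bool.eq_false_or_eq_true (v u.1) with hv | hv <;> simp [hv]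
    have h2 : ∑ v : I → Bool, (if idx u v then (1 : ℝ) else 0) +
        ∑ v : I → Bool, (if idx u v then (0 : ℝ) else 1) = (Fintype.card (I → Bool) : ℝ) := by
      rw [← sum_add_distrib]
      have : ∀ v : I → Bool, (if idx u v then (1 : ℝ) else 0) + (if idx u v then (0 : ℝ) else 1)
          = 1 := by intro v; split_ifs <;> simp
      simp only [this, sum_const, card_univ, nsmul_eq_mul, mul_one]
    linarith
  simp only [h, sum_const, card_univ, nsmul_eq_mul]
  ring

theorem idx_rect {I D : Type} [Fintype I] [DecidableEq I] [Fintype D] [DecidableEq D] (K : ℕ)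
    (hI : Fintype.card I = 2 ^ K) (S : Finset (I × D)) (T : Finset (I → Bool))
    (h : ∀ u ∈ S, ∀ v ∈ T, idx u v = true) :
    S.card * T.card * 2 ^ (K + 1) ≤ Fintype.card (I × D) * Fintype.card (I → Bool) := by
  set J := S.image Prod.fst with hJ
  have hS : S.card ≤ J.card * Fintype.card D := by
    have : S ⊆ J ×ˢ (univ : Finset D) := by
      intro x hx
      rw [mem_product]
      exact ⟨mem_image_of_mem _ hx, mem_univ _⟩
    have h2 := card_le_card this
    rwa [card_product, card_univ] at h2
  have hT : T.card * 2 ^ J.card ≤ Fintype.card (I → Bool) := by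
    rw [← card_powerset, ← card_product, ← card_univ]
    apply card_le_card_of_injOn
      (fun p : (I → Bool) × Finset I => fun i => if i ∈ J then decide (i ∈ p.2) else p.1 i)
    · intro p _; exact mem_coe.2 (mem_univ _)
    · rintro ⟨v, A⟩ hp ⟨v', A'⟩ hp' heq
      simp only [coe_product, Set.mem_prod, mem_coe, mem_powerset] at hp hp'
      have hv : ∀ v ∈ T, ∀ i ∈ J, v i = true := by
        intro v hv i hi
        rw [hJ, mem_image] at hi
        obtain ⟨u, hu, rfl⟩ := hi
        exact h u hu v hv
      have h1 : v = v' := by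
        funext i
        by_cases hi : i ∈ J
        · rw [hv v hp.1 i hi, hv v' hp'.1 i hi]
        · have := congrFun heq i
          simpa [hi] using this
      have h2 : A = A' := by
        ext i
        by_cases hi : i ∈ J
        · have := congrFun heq i
          simpa [hi] using this
        · exact ⟨fun hh => absurd (hp.2 hh) hi, fun hh => absurd (hp'.2 hh) hi⟩
      rw [h1, h2]
  have hJ2 : 2 * J.card ≤ 2 ^ J.card := by
    rcases Nat.eq_zero_or_pos J.card with h0 | hpos
    · rw [h0]; norm_num
    · obtain ⟨s, hs⟩ := Nat.exists_eq_succ_of_ne_zero hpos.ne'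
      rw [hs, pow_succ, mul_comm]
      have := Nat.lt_two_pow_self (n := s)
      exact Nat.mul_le_mul_right 2 this
  rw [Fintype.card_prod, hI]
  calc S.card * T.card * 2 ^ (K + 1) ≤ (J.card * Fintype.card D) * T.card * 2 ^ (K + 1) :=
        Nat.mul_le_mul_right _ (Nat.mul_le_mul_right _ hS)
    _ = 2 ^ K * Fintype.card D * (T.card * (2 * J.card)) := by rw [pow_succ]; ring
    _ ≤ 2 ^ K * Fintype.card D * (T.card * 2 ^ J.card) :=
        Nat.mul_le_mul_left _ (Nat.mul_le_mul_left _ hJ2)
    _ ≤ 2 ^ K * Fintype.card D * Fintype.card (I → Bool) := Nat.mul_le_mul_left _ hT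

end Pool.Agent.R564.Ext
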