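import Mathlib

set_option autoImplicit false

open Finset

namespace Pool.Agent.R564.Ext

/-- Gibbs' inequality, pointwise. -/
theorem mul_log_ge (x c : ℝ) (hx : 0 ≤ x) (hc : 0 < c) :
    x * Real.log c + x - c ≤ x * Real.log x := by
  rcases hx.eq_or_lt with rfl | hx
  · simp; exact hc.le
  · have h := Real.log_le_sub_one_of_pos (div_pos hc hx)
    rw [Real.log_div hc.ne' hx.ne'] at h
    have h2 := mul_le_mul_of_nonneg_left h hx.le
    have h3 : x * (c / x - 1) = c - x := by field_simp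
    rw [h3] at h2
    nlinarith

/-- The entropy of a distribution is at most the logarithm of the size of its support. -/
theorem sum_mul_log_ge {ι : Type*} [Fintype ι] (f : ι → ℝ) (hf : ∀ i, 0 ≤ f i)
    (s : Finset ι) (hs : ∀ i, f i ≠ 0 → i ∈ s) :
    (∑ i, f i) * Real.log (∑ i, f i) - (∑ i, f i) * Real.log (s.card : ℝ) ≤
      ∑ i, f i * Real.log (f i) := by
  classical
  set F := ∑ i, f i with hF
  have hF0 : 0 ≤ F := sum_nonneg fun i _ => hf i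
  rcases hF0.eq_or_lt with h0 | hpos
  · have hz : ∀ i, f i = 0 := by
      intro i
      have := (sum_eq_zero_iff_of_nonneg (s := univ) (f := f) fun i _ => hf i).1 h0.symm
      exact this i (mem_univ i)
    simp [hz, ← h0]
  · have e1 : ∑ i ∈ s, f i = F := by
      rw [hF]
      exact sum_subset (subset_univ s) (fun i _ hi => by
        by_contra h; exact hi (hs i h))
    have e2 : ∑ i ∈ s, f i * Real.log (f i) = ∑ i, f i * Real.log (f i) := by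
      apply sum_subset (subset_univ s)
      intro i _ hi
      have : f i = 0 := by by_contra h; exact hi (hs i h)
      simp [this]
    have hne : s.Nonempty := by
      by_contra h
      rw [not_nonempty_iff_eq_empty] at h
      rw [h] at e1; simp at e1; linarith
    have hcard : (0 : ℝ) < s.card := by exact_mod_cast hne.card_pos
    have key : ∑ i ∈ s, (f i * Real.log (F / s.card) + f i - F / s.card) ≤
        ∑ i ∈ s, f i * Real.log (f i) :=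
      sum_le_sum fun i _ => mul_log_ge _ _ (hf i) (div_pos hpos hcard)
    rw [e2] at key
    rw [sum_sub_distrib, sum_add_distrib, ← sum_mul, e1, sum_const, nsmul_eq_mul,
      Real.log_div hpos.ne' hcard.ne'] at key
    have : (s.card : ℝ) * (F / s.card) = F := by field_simp
    rw [this] at key
    linarith

/-- The two off-diagonal costs cannot both be small. -/
theorem cross_bound (A₀ A₁ B₀ B₁ E₀ E₁ F₀ F₁ κ : ℝ) (hA₀ : 0 ≤ A₀) (hA₁ : 0 ≤ A₁)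
    (hB₀ : 0 ≤ B₀) (hB₁ : 0 ≤ B₁) (hE₀ : 0 ≤ E₀) (hE₁ : 0 ≤ E₁) (hF₀ : 0 ≤ F₀) (hF₁ : 0 ≤ F₁)
    (h₀ : A₀ * B₀ * κ ≤ B₀ * E₀ + A₀ * F₀) (h₁ : A₁ * B₁ * κ ≤ B₁ * E₁ + A₁ * F₁) :
    2 * κ * min (A₀ * B₁) (A₁ * B₀) ≤
      (B₁ * E₀ + A₀ * F₁) + (B₀ * E₁ + A₁ * F₀) := by
  have hR : 0 ≤ (B₁ * E₀ + A₀ * F₁) + (B₀ * E₁ + A₁ * F₀) := by positivity
  rcases hA₀.eq_or_lt with r | pA₀
  · have : min (A₀ * B₁) (A₁ * B₀) = 0 := by
      rw [← r, zero_mul]; exact min_eq_left (by positivity)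
    rw [this]; linarith
  rcases hA₁.eq_or_lt with r | pA₁
  · have : min (A₀ * B₁) (A₁ * B₀) = 0 := by
      rw [← r, zero_mul]; exact min_eq_right (by positivity)
    rw [this]; linarith
  rcases hB₀.eq_or_lt with r | pB₀
  · have : min (A₀ * B₁) (A₁ * B₀) = 0 := by
      rw [← r, mul_zero]; exact min_eq_right (by positivity)
    rw [this]; linarith
  rcases hB₁.eq_or_lt with r | pB₁
  · have : min (A₀ * B₁) (A₁ * B₀) = 0 := by
      rw [← r, mul_zero]; exact min_eq_left (by positivity)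
    rw [this]; linarith
  set m := min (A₀ * B₁) (A₁ * B₀) with hm
  have m0 : 0 ≤ m := by rw [hm]; positivity
  have m1 : m ≤ A₀ * B₁ := min_le_left _ _
  have m2 : m ≤ A₁ * B₀ := min_le_right _ _
  have k0 : κ ≤ E₀ / A₀ + F₀ / B₀ := by
    rw [div_add_div _ _ pA₀.ne' pB₀.ne', le_div_iff₀ (by positivity)]
    nlinarith
  have k1 : κ ≤ E₁ / A₁ + F₁ / B₁ := by
    rw [div_add_div _ _ pA₁.ne' pB₁.ne', le_div_iff₀ (by positivity)]
    nlinarith
  have a1 : m * (E₀ / A₀ + F₁ / B₁) ≤ A₀ * B₁ * (E₀ / A₀ + F₁ / B₁) :=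
    mul_le_mul_of_nonneg_right m1 (by positivity)
  have a2 : m * (E₁ / A₁ + F₀ / B₀) ≤ A₁ * B₀ * (E₁ / A₁ + F₀ / B₀) :=
    mul_le_mul_of_nonneg_right m2 (by positivity)
  have r1 : A₀ * B₁ * (E₀ / A₀ + F₁ / B₁) = B₁ * E₀ + A₀ * F₁ := by field_simp
  have r2 : A₁ * B₀ * (E₁ / A₁ + F₀ / B₀) = B₀ * E₁ + A₁ * F₀ := by field_simp
  rw [r1] at a1
  rw [r2] at a2
  have a3 : m * (κ + κ) ≤ m * ((E₀ / A₀ + F₀ / B₀) + (E₁ / A₁ + F₁ / B₁)) :=
    mul_le_mul_of_nonneg_left (add_le_add k0 k1) m0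
  nlinarith

/-- A linear lower bound of the minimum in terms of the geometric mean. -/
theorem min_ge (p q t : ℝ) (hp : 0 ≤ p) (hq : 0 ≤ q) (ht : 0 < t) :
    (2 * Real.sqrt (p * q) - (p + q) / t) / t ≤ min p q := by
  have key : ∀ a b : ℝ, 0 ≤ a → 0 ≤ b → 2 * Real.sqrt (a * b) ≤ t * a + b / t := by
    intro a b ha hb
    have h1 : Real.sqrt (a * b) = Real.sqrt (t * a) * Real.sqrt (b / t) := by
      rw [← Real.sqrt_mul (by positivity)]
      congr 1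
      field_simp
    rw [h1]
    have s1 := Real.sq_sqrt (show 0 ≤ t * a by positivity)
    have s2 := Real.sq_sqrt (show 0 ≤ b / t by positivity)
    nlinarith [sq_nonneg (Real.sqrt (t * a) - Real.sqrt (b / t))]
  have k1 := key p q hp hq
  have k2 := key q p hq hp
  rw [mul_comm q p] at k2
  rw [div_le_iff₀ ht]
  have e : (p + q) / t = p / t + q / t := by ring
  have n1 : 0 ≤ p / t := by positivity
  have n2 : 0 ≤ q / t := by positivity
  rcases le_total p q with h | h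
  · rw [min_eq_left h]; linarith
  · rw [min_eq_right h]; linarith

/-- `Σ w p ln (p / M) ≥ w₀ w₁ (√p₀ - √p₁)²`, where `M = Σ w p`. -/
theorem J_bound (w₀ w₁ w₂ w₃ p₀ p₁ p₂ p₃ M : ℝ) (hw₀ : 0 ≤ w₀) (hw₁ : 0 ≤ w₁) (hw₂ : 0 ≤ w₂)
    (hw₃ : 0 ≤ w₃) (hw : w₀ + w₁ + w₂ + w₃ = 1) (hp₀ : 0 ≤ p₀) (hp₁ : 0 ≤ p₁) (hp₂ : 0 ≤ p₂)
    (hp₃ : 0 ≤ p₃) (hM : M = w₀ * p₀ + w₁ * p₁ + w₂ * p₂ + w₃ * p₃) (hM0 : 0 < M) :
    w₀ * w₁ * (p₀ + p₁ - 2 * Real.sqrt (p₀ * p₁)) ≤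
      w₀ * (p₀ * (Real.log p₀ - Real.log M)) + w₁ * (p₁ * (Real.log p₁ - Real.log M)) +
      w₂ * (p₂ * (Real.log p₂ - Real.log M)) + w₃ * (p₃ * (Real.log p₃ - Real.log M)) := by
  have key : ∀ p : ℝ, 0 ≤ p →
      2 * p - 2 * (Real.sqrt p * Real.sqrt M) ≤ p * (Real.log p - Real.log M) := by
    intro p hp
    rcases hp.eq_or_lt with rfl | hp
    · simp
    · have sp := Real.sqrt_pos.2 hp
      have sM := Real.sqrt_pos.2 hM0
      have h := Real.log_le_sub_one_of_pos (div_pos sM sp)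
      rw [Real.log_div sM.ne' sp.ne', Real.log_sqrt hM0.le, Real.log_sqrt hp.le] at h
      have h2 := mul_le_mul_of_nonneg_left h (show 0 ≤ 2 * p by linarith)
      have h3 : 2 * p * (Real.sqrt M / Real.sqrt p - 1) =
          2 * (Real.sqrt p * Real.sqrt M) - 2 * p := by
        have hh : p = Real.sqrt p * Real.sqrt p := (Real.mul_self_sqrt hp.le).symm
        have : p * (Real.sqrt M / Real.sqrt p) = Real.sqrt p * Real.sqrt M := by
          nth_rewrite 1 [hh]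
          field_simp
        linear_combination 2 * this
      rw [h3] at h2
      nlinarith
  have k0 := mul_le_mul_of_nonneg_left (key p₀ hp₀) hw₀
  have k1 := mul_le_mul_of_nonneg_left (key p₁ hp₁) hw₁
  have k2 := mul_le_mul_of_nonneg_left (key p₂ hp₂) hw₂
  have k3 := mul_le_mul_of_nonneg_left (key p₃ hp₃) hw₃
  rw [Real.sqrt_mul hp₀]
  set R := Real.sqrt M
  set r₀ := Real.sqrt p₀
  set r₁ := Real.sqrt p₁
  set r₂ := Real.sqrt p₂
  set r₃ := Real.sqrt p₃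
  have eR : R * R = M := Real.mul_self_sqrt hM0.le
  have e0 : r₀ * r₀ = p₀ := Real.mul_self_sqrt hp₀
  have e1 : r₁ * r₁ = p₁ := Real.mul_self_sqrt hp₁
  have e2 : r₂ * r₂ = p₂ := Real.mul_self_sqrt hp₂
  have e3 : r₃ * r₃ = p₃ := Real.mul_self_sqrt hp₃
  -- variance identity
  have hvar : w₀ * p₀ + w₁ * p₁ + w₂ * p₂ + w₃ * p₃ - (w₀ * r₀ + w₁ * r₁ + w₂ * r₂ + w₃ * r₃) ^ 2 =
      w₀ * w₁ * (r₀ - r₁) ^ 2 + w₀ * w₂ * (r₀ - r₂) ^ 2 + w₀ * w₃ * (r₀ - r₃) ^ 2 +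
      w₁ * w₂ * (r₁ - r₂) ^ 2 + w₁ * w₃ * (r₁ - r₃) ^ 2 + w₂ * w₃ * (r₂ - r₃) ^ 2 := by
    have hw3 : w₃ = 1 - w₀ - w₁ - w₂ := by linarith
    rw [← e0, ← e1, ← e2, ← e3, hw3]; ring
  have n1 : 0 ≤ w₀ * w₂ * (r₀ - r₂) ^ 2 := by positivity
  have n2 : 0 ≤ w₀ * w₃ * (r₀ - r₃) ^ 2 := by positivity
  have n3 : 0 ≤ w₁ * w₂ * (r₁ - r₂) ^ 2 := by positivity
  have n4 : 0 ≤ w₁ * w₃ * (r₁ - r₃) ^ 2 := by positivity
  have n5 : 0 ≤ w₂ * w₃ * (r₂ - r₃) ^ 2 := by positivity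
  have hsq : w₀ * w₁ * (p₀ + p₁ - 2 * (r₀ * r₁)) = w₀ * w₁ * (r₀ - r₁) ^ 2 := by
    rw [← e0, ← e1]; ring
  rw [hsq]
  have hfin := sq_nonneg (R - (w₀ * r₀ + w₁ * r₁ + w₂ * r₂ + w₃ * r₃))
  nlinarith

end Pool.Agent.R564.Ext
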