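import Pool.Agent.R564.ExtIneq

set_option autoImplicit false

open Finset

namespace Pool.Agent.R564.Ext

variable {U V : Type} [Fintype U] [Fintype V]

/-- The weight function of the counterexample: `Z` is a uniform bit, `Z'` differs from `Z` with
probability `δ`; if `Z = Z'` then the pair `(u, v)` is uniform subject to `G u v`, and otherwise
it is uniform. -/
noncomputable def mu (δ : ℝ) (G : U → V → Bool) (x : Bool × U) (y : Bool × V) : ℝ :=
  if x.1 = y.1 then
    (if G x.2 y.2 then (1 - δ) / ((Fintype.card U : ℝ) * (Fintype.card V : ℝ)) else 0)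
  else δ / (2 * ((Fintype.card U : ℝ) * (Fintype.card V : ℝ)))

/-- The contribution of one block to the information cost. -/
theorem block_sum (f : U → ℝ) (g : V → ℝ) (M : ℝ) (hf : ∀ u, 0 ≤ f u) (hg : ∀ v, 0 ≤ g v)
    (hM : 0 < M) :
    ∑ u, ∑ v, f u * g v * Real.log (f u * g v / M) =
      (∑ v, g v) * (∑ u, f u * Real.log (f u)) + (∑ u, f u) * (∑ v, g v * Real.log (g v)) -
      (∑ u, f u) * (∑ v, g v) * Real.log M := by
  have h : ∀ u v, f u * g v * Real.log (f u * g v / M) =
      g v * (f u * Real.log (f u)) + f u * (g v * Real.log (g v)) - f u * g v * Real.log M := by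
    intro u v
    rcases (hf u).eq_or_lt with h | h
    · simp [← h]
    rcases (hg v).eq_or_lt with h' | h'
    · simp [← h']
    rw [Real.log_div (mul_pos h h').ne' hM.ne', Real.log_mul h.ne' h'.ne']
    ring
  simp only [h, sum_sub_distrib, sum_add_distrib]
  congr 1
  · congr 1
    · rw [mul_comm, sum_mul_sum]
      refine sum_congr rfl fun u _ => sum_congr rfl fun v _ => by ring
    · rw [sum_mul_sum]
  · rw [sum_mul_sum, sum_mul]
    refine sum_congr rfl fun u _ => ?_
    rw [sum_mul]

theorem plogp (A B nU nV : ℝ) (hA : 0 ≤ A) (hB : 0 ≤ B) (hU : 0 < nU) (hV : 0 < nV) :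
    A * B * (Real.log A + Real.log B - Real.log nU - Real.log nV) / (nU * nV) =
      A * B / (nU * nV) * Real.log (A * B / (nU * nV)) := by
  rcases hA.eq_or_lt with h | h
  · simp [← h]
  rcases hB.eq_or_lt with h' | h'
  · simp [← h']
  rw [Real.log_div (mul_pos h h').ne' (mul_pos hU hV).ne', Real.log_mul h.ne' h'.ne',
    Real.log_mul hU.ne' hV.ne']
  ring

theorem leaf_bound (δ : ℝ) (hδ0 : 0 < δ) (hδ1 : δ < 1) (K : ℕ) (G : U → V → Bool)
    [Nonempty U] [Nonempty V]
    (hG : ∀ (S : Finset U) (T : Finset V), (∀ u ∈ S, ∀ v ∈ T, G u v = true) →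
      S.card * T.card * 2 ^ (K + 1) ≤ Fintype.card U * Fintype.card V)
    (a : Bool × U → ℝ) (b : Bool × V → ℝ) (ha : ∀ x, 0 ≤ a x) (hb : ∀ y, 0 ≤ b y)
    (hs : ∀ z u v, a (z, u) ≠ 0 → b (z, v) ≠ 0 → G u v = true)
    (P : Bool → Bool → ℝ)
    (hP : ∀ z z', P z z' = (∑ u, a (z, u)) * (∑ v, b (z', v)) /
      ((Fintype.card U : ℝ) * (Fintype.card V : ℝ))) :
    (1 - δ) * (K * Real.log 2 + (1 - δ) / 2) * (P false false + P true true) -
      (P false true + P true false) / (4 * δ * ((K + 1) * Real.log 2)) ≤
    ∑ x, ∑ y, mu δ G x y * (a x * b y) *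
      Real.log (a x * b y / ∑ x', ∑ y', mu δ G x' y' * (a x' * b y')) := by
  classical
  set nU : ℝ := (Fintype.card U : ℝ) with hnU
  set nV : ℝ := (Fintype.card V : ℝ) with hnV
  have pU : 0 < nU := by rw [hnU]; exact_mod_cast Fintype.card_pos
  have pV : 0 < nV := by rw [hnV]; exact_mod_cast Fintype.card_pos
  have pn : 0 < nU * nV := mul_pos pU pV
  have pd : 0 < 1 - δ := by linarith
  set κ : ℝ := (K + 1) * Real.log 2 with hκ
  have l2 : 0 < Real.log 2 := Real.log_pos (by norm_num)
  have pκ : 0 < κ := by rw [hκ]; positivity
  set w : Bool → Bool → ℝ := fun z z' => if z = z' then (1 - δ) / (nU * nV) else δ / (2 * (nU * nV))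
    with hw
  have hmu : ∀ x y, mu δ G x y * (a x * b y) = w x.1 y.1 * (a x * b y) := by
    rintro ⟨z, u⟩ ⟨z', v⟩
    simp only [mu, hw]
    by_cases h : z = z'
    · subst h
      simp only [if_true]
      by_cases h1 : a (z, u) = 0
      · simp [h1]
      by_cases h2 : b (z, v) = 0
      · simp [h2]
      rw [if_pos (hs z u v h1 h2)]
    · simp only [if_neg h, hnU, hnV]
  simp only [hmu]
  set A : Bool → ℝ := fun z => ∑ u, a (z, u) with hA
  set B : Bool → ℝ := fun z => ∑ v, b (z, v) with hB
  have hA0 : ∀ z, 0 ≤ A z := fun z => sum_nonneg fun u _ => ha _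
  have hB0 : ∀ z, 0 ≤ B z := fun z => sum_nonneg fun v _ => hb _
  have hPA : ∀ z z', P z z' = A z * B z' / (nU * nV) := hP
  have hP0 : ∀ z z', 0 ≤ P z z' := by
    intro z z'; rw [hPA]; exact div_nonneg (mul_nonneg (hA0 _) (hB0 _)) pn.le
  -- the sum over the inputs in blocks
  have split : ∀ f : (Bool × U) → (Bool × V) → ℝ,
      ∑ x, ∑ y, f x y = ∑ z, ∑ z', ∑ u, ∑ v, f (z, u) (z', v) := by
    intro f
    rw [Fintype.sum_prod_type]
    refine sum_congr rfl fun z _ => ?_
    simp_rw [Fintype.sum_prod_type]
    exact sum_comm
  have hM : ∑ x', ∑ y', w x'.1 y'.1 * (a x' * b y') =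
      (1 - δ) * (P false false + P true true) + δ / 2 * (P false true + P true false) := by
    rw [split]
    have : ∀ z z', ∑ u, ∑ v, w (z, u).1 (z', v).1 * (a (z, u) * b (z', v)) =
        w z z' * (A z * B z') := by
      intro z z'
      simp only [hA, hB]
      rw [sum_mul_sum, mul_sum]
      refine sum_congr rfl fun u _ => ?_
      rw [mul_sum]
    rw [sum_congr rfl fun z _ => sum_congr rfl fun z' _ => this z z']
    simp only [Fintype.sum_bool, hPA, hw, Bool.true_eq_false, Bool.false_eq_true, if_true, if_false]
    field_simp
    ring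
  rw [hM]
  set M := (1 - δ) * (P false false + P true true) + δ / 2 * (P false true + P true false)
    with hMdef
  have hM0 : 0 ≤ M := by
    have := hP0 false false; have := hP0 true true; have := hP0 false true
    have := hP0 true false
    rw [hMdef]; positivity
  rcases hM0.eq_or_lt with hz | hMpos
  · -- the transcript never occurs
    have h1 : P false false + P true true = 0 := by
      have := hP0 false false; have := hP0 true true; have := hP0 false true
      have := hP0 true false
      nlinarith
    have h2 : P false true + P true false = 0 := by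
      have := hP0 false false; have := hP0 true true; have := hP0 false true
      have := hP0 true false
      nlinarith
    rw [h1, h2, ← hz]
    simp
  -- the main case
  set Φa : Bool → ℝ := fun z => ∑ u, a (z, u) * Real.log (a (z, u)) with hΦa
  set Φb : Bool → ℝ := fun z => ∑ v, b (z, v) * Real.log (b (z, v)) with hΦb
  have hT : ∑ x, ∑ y, w x.1 y.1 * (a x * b y) * Real.log (a x * b y / M) =
      ∑ z, ∑ z', w z z' * (B z' * Φa z + A z * Φb z' - A z * B z' * Real.log M) := by
    rw [split]
    refine sum_congr rfl fun z _ => sum_congr rfl fun z' _ => ?_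
    rw [← block_sum (fun u => a (z, u)) (fun v => b (z', v)) M (fun u => ha _) (fun v => hb _)
      hMpos, mul_sum]
    refine sum_congr rfl fun u _ => ?_
    rw [mul_sum]
    refine sum_congr rfl fun v _ => by ring
  rw [hT]
  set E : Bool → ℝ := fun z => Φa z - A z * Real.log (A z) + A z * Real.log nU with hE
  set F : Bool → ℝ := fun z => Φb z - B z * Real.log (B z) + B z * Real.log nV with hF
  have hE0 : ∀ z, 0 ≤ E z := by
    intro z
    have := sum_mul_log_ge (fun u => a (z, u)) (fun u => ha _) univ (fun _ _ => mem_univ _)
    rw [card_univ] at this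
    simp only [hE, hΦa, hA]; linarith
  have hF0 : ∀ z, 0 ≤ F z := by
    intro z
    have := sum_mul_log_ge (fun v => b (z, v)) (fun v => hb _) univ (fun _ _ => mem_univ _)
    rw [card_univ] at this
    simp only [hF, hΦb, hB]; linarith
  have hdiag : ∀ z, A z * B z * κ ≤ B z * E z + A z * F z := by
    intro z
    rcases (hA0 z).eq_or_lt with h | hApos
    · rw [← h]; have := mul_nonneg (hB0 z) (hE0 z); linarith
    rcases (hB0 z).eq_or_lt with h | hBpos
    · rw [← h]; have := mul_nonneg (hA0 z) (hF0 z); linarith
    set S : Finset U := univ.filter fun u => a (z, u) ≠ 0 with hS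
    set T : Finset V := univ.filter fun v => b (z, v) ≠ 0 with hT'
    have e1 := sum_mul_log_ge (fun u => a (z, u)) (fun u => ha _) S
      (fun u hu => by rw [hS, mem_filter]; exact ⟨mem_univ _, hu⟩)
    have e2 := sum_mul_log_ge (fun v => b (z, v)) (fun v => hb _) T
      (fun v hv => by rw [hT', mem_filter]; exact ⟨mem_univ _, hv⟩)
    have e3 := hG S T (fun u hu v hv => hs z u v (by rw [hS, mem_filter] at hu; exact hu.2)
      (by rw [hT', mem_filter] at hv; exact hv.2))
    have cS : 0 < S.card := by
      rw [card_pos]
      by_contra h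
      rw [not_nonempty_iff_eq_empty] at h
      have : A z = 0 := by
        simp only [hA]
        apply sum_eq_zero
        intro u _
        by_contra hu
        have : u ∈ S := by rw [hS, mem_filter]; exact ⟨mem_univ _, hu⟩
        rw [h] at this; simp at this
      linarith
    have cT : 0 < T.card := by
      rw [card_pos]
      by_contra h
      rw [not_nonempty_iff_eq_empty] at h
      have : B z = 0 := by
        simp only [hB]
        apply sum_eq_zero
        intro u _
        by_contra hu
        have : u ∈ T := by rw [hT', mem_filter]; exact ⟨mem_univ _, hu⟩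
        rw [h] at this; simp at this
      linarith
    have cS' : (0 : ℝ) < S.card := by exact_mod_cast cS
    have cT' : (0 : ℝ) < T.card := by exact_mod_cast cT
    have e4 : (S.card : ℝ) * T.card * 2 ^ (K + 1) ≤ nU * nV := by
      rw [hnU, hnV]; exact_mod_cast e3
    have e5 := Real.log_le_log (by positivity) e4
    rw [Real.log_mul (by positivity) (by positivity), Real.log_mul cS'.ne' cT'.ne',
      Real.log_pow, Real.log_mul pU.ne' pV.ne'] at e5
    push_cast at e5
    have e6 : κ ≤ (Real.log nU - Real.log S.card) + (Real.log nV - Real.log T.card) := by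
      rw [hκ]; linarith
    have g1 : A z * (Real.log nU - Real.log S.card) ≤ E z := by
      simp only [hE, hΦa, hA]; linarith
    have g2 : B z * (Real.log nV - Real.log T.card) ≤ F z := by
      simp only [hF, hΦb, hB]; linarith
    have g3 := mul_le_mul_of_nonneg_left g1 hBpos.le
    have g4 := mul_le_mul_of_nonneg_left g2 hApos.le
    have g5 := mul_le_mul_of_nonneg_left e6 (mul_nonneg hApos.le hBpos.le)
    nlinarith
  -- normalised quantities
  set e : Bool → Bool → ℝ := fun z z' => (B z' * E z + A z * F z') / (nU * nV) with he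
  have hterm : ∀ z z', (B z' * Φa z + A z * Φb z' - A z * B z' * Real.log M) / (nU * nV) =
      e z z' + P z z' * (Real.log (P z z') - Real.log M) := by
    intro z z'
    have h1 := plogp (A z) (B z') nU nV (hA0 _) (hB0 _) pU pV
    rw [← hPA] at h1
    have h2 : P z z' * (Real.log (P z z') - Real.log M) =
        A z * B z' * (Real.log (A z) + Real.log (B z') - Real.log nU - Real.log nV) / (nU * nV) -
        A z * B z' / (nU * nV) * Real.log M := by
      rw [mul_sub, ← h1, hPA]
    rw [h2]
    simp only [he, hE, hF]
    field_simp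
    ring
  have hw1 : ∀ z z' r, w z z' * r = (if z = z' then (1 - δ) else δ / 2) * (r / (nU * nV)) := by
    intro z z' r
    simp only [hw]
    split_ifs
    · field_simp
    · field_simp
  simp only [hw1, hterm]
  have d0 : P false false * κ ≤ e false false := by
    rw [hPA, he]
    have := hdiag false
    simp only
    rw [div_mul_eq_mul_div]
    exact div_le_div_of_nonneg_right this pn.le
  have d1 : P true true * κ ≤ e true true := by
    rw [hPA, he]
    have := hdiag true
    simp only
    rw [div_mul_eq_mul_div]
    exact div_le_div_of_nonneg_right this pn.le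
  have cr : 2 * κ * min (P false true) (P true false) ≤ e false true + e true false := by
    have h := cross_bound (A false) (A true) (B false / (nU * nV)) (B true / (nU * nV))
      (E false) (E true) (F false / (nU * nV)) (F true / (nU * nV)) κ (hA0 _) (hA0 _)
      (div_nonneg (hB0 _) pn.le) (div_nonneg (hB0 _) pn.le) (hE0 _) (hE0 _)
      (div_nonneg (hF0 _) pn.le) (div_nonneg (hF0 _) pn.le)
      (by
        have := div_le_div_of_nonneg_right (hdiag false) pn.le
        calc A false * (B false / (nU * nV)) * κ = A false * B false * κ / (nU * nV) := by ring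
          _ ≤ _ := this
          _ = _ := by ring)
      (by
        have := div_le_div_of_nonneg_right (hdiag true) pn.le
        calc A true * (B true / (nU * nV)) * κ = A true * B true * κ / (nU * nV) := by ring
          _ ≤ _ := this
          _ = _ := by ring)
    have e1 : A false * (B true / (nU * nV)) = P false true := by rw [hPA]; ring
    have e2 : A true * (B false / (nU * nV)) = P true false := by rw [hPA]; ring
    rw [e1, e2] at h
    refine h.trans (le_of_eq ?_)
    simp only [he]
    ring
  have mg := min_ge (P false true) (P true false) (2 * δ * κ) (hP0 _ _) (hP0 _ _) (by positivity)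
  have jb := J_bound ((1 - δ) / 2) ((1 - δ) / 2) (δ / 2) (δ / 2) (2 * P false false)
    (2 * P true true) (P false true) (P true false) M (by positivity) (by positivity)
    (by positivity) (by positivity) (by ring) (by have := hP0 false false; positivity)
    (by have := hP0 true true; positivity) (hP0 _ _) (hP0 _ _) (by rw [hMdef]; ring) hMpos
  -- geometric means agree
  have hg : Real.sqrt (2 * P false false * (2 * P true true)) =
      2 * Real.sqrt (P false true * P true false) := by
    have : 2 * P false false * (2 * P true true) = 2 ^ 2 * (P false true * P true false) := by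
      simp only [hPA]; ring
    rw [this, Real.sqrt_mul (by norm_num), Real.sqrt_sq (by norm_num)]
  rw [hg] at jb
  set g := Real.sqrt (P false true * P true false) with hgdef
  have g0 : 0 ≤ g := Real.sqrt_nonneg _
  have lg : ∀ p : ℝ, 0 ≤ p → 2 * p * (Real.log (2 * p) - Real.log M) =
      2 * (p * Real.log 2) + 2 * (p * (Real.log p - Real.log M)) := by
    intro p hp
    rcases hp.eq_or_lt with h | h
    · simp [← h]
    · rw [Real.log_mul (by norm_num) h.ne']; ring
  rw [lg _ (hP0 _ _), lg _ (hP0 _ _)] at jb
  have mg' : g - (P false true + P true false) / (4 * δ * κ) ≤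
      δ * κ * min (P false true) (P true false) := by
    have := mul_le_mul_of_nonneg_left mg (show 0 ≤ δ * κ by positivity)
    refine le_trans (le_of_eq ?_) this
    field_simp
    ring
  simp only [Fintype.sum_bool]
  simp only [Bool.true_eq_false, Bool.false_eq_true, if_true, if_false]
  set J00 := P false false * (Real.log (P false false) - Real.log M)
  set J11 := P true true * (Real.log (P true true) - Real.log M)
  set J01 := P false true * (Real.log (P false true) - Real.log M)
  set J10 := P true false * (Real.log (P true false) - Real.log M)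
  have hκ' : (K : ℝ) * Real.log 2 = κ - Real.log 2 := by rw [hκ]; ring
  rw [hκ']
  have q0 := mul_le_mul_of_nonneg_left d0 pd.le
  have q1 := mul_le_mul_of_nonneg_left d1 pd.le
  have q2 := mul_le_mul_of_nonneg_left cr (show 0 ≤ δ / 2 by positivity)
  have q3 : (1 - δ) ^ 2 * g ≤ g := by
    have : (1 - δ) ^ 2 ≤ 1 := by nlinarith
    nlinarith
  nlinarith

end Pool.Agent.R564.Ext
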