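import Pool.Agent.R564.ExtLeaf
import Pool.Agent.R564.ExtBasic

set_option autoImplicit false

open Finset

namespace Pool.Agent.R564.Ext

variable {X Y U V : Type} [Fintype X] [Fintype Y] [Fintype U] [Fintype V]

/-- The function `F((z, u), (z', v)) = 1` iff `z ≠ z'` or `G u v = 1`, read through
identifications of the input sets with `Bool × U` and `Bool × V`. -/
def FF (eX : X ≃ Bool × U) (eY : Y ≃ Bool × V) (G : U → V → Bool) (x : X) (y : Y) : Bool :=
  ((eX x).1 != (eY y).1) || G (eX x).2 (eY y).2

/-- The distribution `mu`, read through identifications of the input sets. -/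
noncomputable def MM (eX : X ≃ Bool × U) (eY : Y ≃ Bool × V) (δ : ℝ) (G : U → V → Bool)
    (x : X) (y : Y) : ℝ :=
  mu δ G (eX x) (eY y)

theorem mu_eq_zero (δ : ℝ) (G : U → V → Bool) (x : Bool × U) (y : Bool × V)
    (h : ((x.1 != y.1) || G x.2 y.2) = false) : mu δ G x y = 0 := by
  rw [Bool.or_eq_false_iff] at h
  have h1 : x.1 = y.1 := by
    have := h.1; simpa using this
  simp [mu, h1, h.2]

theorem ext_lower (δ : ℝ) (hδ0 : 0 < δ) (hδ1 : δ < 1) (K : ℕ) (G : U → V → Bool)
    [Nonempty U] [Nonempty V]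
    (hG1 : ∑ u, ∑ v, (if G u v then (1 : ℝ) else 0) =
      (Fintype.card U : ℝ) * (Fintype.card V : ℝ) / 2)
    (hG : ∀ (S : Finset U) (T : Finset V), (∀ u ∈ S, ∀ v ∈ T, G u v = true) →
      S.card * T.card * 2 ^ (K + 1) ≤ Fintype.card U * Fintype.card V)
    (eX : X ≃ Bool × U) (eY : Y ≃ Bool × V) (π : Protocol X Y Bool)
    (hπ : π.ZeroError (FF eX eY G)) :
    ((1 - δ) * (K * Real.log 2 + (1 - δ) / 2) - 1 / (2 * δ * ((K + 1) * Real.log 2))) / Real.log 2
      ≤ π.extInfo (MM eX eY δ G) := by
  classical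
  have l2 : 0 < Real.log 2 := Real.log_pos (by norm_num)
  have pU : (0 : ℝ) < (Fintype.card U : ℝ) := by exact_mod_cast Fintype.card_pos
  have pV : (0 : ℝ) < (Fintype.card V : ℝ) := by exact_mod_cast Fintype.card_pos
  have pn := mul_pos pU pV
  obtain ⟨a, b, ha, hb, hab⟩ := π.rectangle
  set nn : ℝ := (Fintype.card U : ℝ) * (Fintype.card V : ℝ) with hnn
  -- the masses of the blocks
  set P : π.Transcript → Bool → Bool → ℝ := fun τ z z' =>
    if π.out τ = true then
      (∑ u, a τ (eX.symm (z, u))) * (∑ v, b τ (eY.symm (z', v))) / nn else 0 with hP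
  -- per transcript bound
  have key : ∀ τ, (1 - δ) * (K * Real.log 2 + (1 - δ) / 2) *
        (P τ false false + P τ true true) -
      (P τ false true + P τ true false) / (4 * δ * ((K + 1) * Real.log 2)) ≤
      ∑ x, ∑ y, MM eX eY δ G x y * π.prob x y τ *
        Real.log (π.prob x y τ / ∑ x', ∑ y', MM eX eY δ G x' y' * π.prob x' y' τ) := by
    intro τ
    by_cases hτ : π.out τ = true
    · have hs : ∀ z u v, a τ (eX.symm (z, u)) ≠ 0 → b τ (eY.symm (z, v)) ≠ 0 →
          G u v = true := by
        intro z u v h1 h2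
        have h3 := hπ (eX.symm (z, u)) (eY.symm (z, v)) τ (by rw [hab]; exact mul_ne_zero h1 h2)
        rw [hτ] at h3
        simp [FF] at h3
        exact h3
      have h := leaf_bound δ hδ0 hδ1 K G hG (fun x => a τ (eX.symm x)) (fun y => b τ (eY.symm y))
        (fun x => ha _ _) (fun y => hb _ _) hs (P τ) (fun z z' => by
          simp only [hP]; rw [if_pos hτ])
      refine h.trans (le_of_eq ?_)
      have e1 : ∀ f : X → Y → ℝ, ∑ x, ∑ y, f x y =
          ∑ x, ∑ y, f (eX.symm x) (eY.symm y) := by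
        intro f
        rw [← Equiv.sum_comp eX.symm]
        refine sum_congr rfl fun x _ => ?_
        rw [← Equiv.sum_comp eY.symm]
      rw [e1 (fun x y => MM eX eY δ G x y * π.prob x y τ *
        Real.log (π.prob x y τ / ∑ x', ∑ y', MM eX eY δ G x' y' * π.prob x' y' τ))]
      rw [e1 (fun x y => MM eX eY δ G x y * π.prob x y τ)]
      simp only [MM, hab, Equiv.apply_symm_apply]
    · have hz : ∀ x y, MM eX eY δ G x y * π.prob x y τ = 0 := by
        intro x y
        by_cases hp : π.prob x y τ = 0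
        · rw [hp, mul_zero]
        · have h3 := hπ x y τ hp
          have h4 : FF eX eY G x y = false := by
            rw [← h3]; simpa using hτ
          rw [MM, mu_eq_zero δ G (eX x) (eY y) h4, zero_mul]
      simp only [hP, if_neg hτ, hz]
      simp
  have hsum : ∀ z z', ∑ τ, P τ z z' =
      (∑ u, ∑ v, (if FF eX eY G (eX.symm (z, u)) (eY.symm (z', v)) then (1 : ℝ) else 0)) / nn := by
    intro z z'
    have h1 : ∀ τ, P τ z z' = (∑ u, ∑ v, (if π.out τ = true then
        π.prob (eX.symm (z, u)) (eY.symm (z', v)) τ else 0)) / nn := by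
      intro τ
      simp only [hP]
      by_cases hτ : π.out τ = true
      · simp only [if_pos hτ, hab]
        rw [sum_mul_sum]
      · simp only [if_neg hτ]; simp
    simp only [h1]
    rw [← sum_div]
    congr 1
    rw [sum_comm]
    refine sum_congr rfl fun u _ => ?_
    rw [sum_comm]
    refine sum_congr rfl fun v _ => ?_
    by_cases hF : FF eX eY G (eX.symm (z, u)) (eY.symm (z', v)) = true
    · rw [if_pos hF, ← π.sum_prob (eX.symm (z, u)) (eY.symm (z', v))]
      refine sum_congr rfl fun τ _ => ?_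
      by_cases hτ : π.out τ = true
      · rw [if_pos hτ]
      · rw [if_neg hτ]
        by_contra hne
        exact hτ (by rw [hπ _ _ τ (Ne.symm hne), hF])
    · rw [if_neg hF]
      apply sum_eq_zero
      intro τ _
      by_cases hτ : π.out τ = true
      · rw [if_pos hτ]
        by_contra hne
        exact hF (by rw [← hπ _ _ τ hne, hτ])
      · rw [if_neg hτ]
  have hd : ∀ z, ∑ τ, P τ z z = 1 / 2 := by
    intro z
    rw [hsum]
    have : ∀ u v, (if FF eX eY G (eX.symm (z, u)) (eY.symm (z, v)) then (1 : ℝ) else 0) =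
        (if G u v then (1 : ℝ) else 0) := by
      intro u v; simp [FF]
    simp only [this]
    rw [hG1, div_div, mul_comm (2 : ℝ), ← div_div, div_self pn.ne']
  have ho : ∀ z z', z ≠ z' → ∑ τ, P τ z z' = 1 := by
    intro z z' hz
    rw [hsum]
    have : ∀ u v, (if FF eX eY G (eX.symm (z, u)) (eY.symm (z', v)) then (1 : ℝ) else 0) = 1 := by
      intro u v; simp [FF, hz]
    simp only [this, sum_const, card_univ, nsmul_eq_mul, mul_one]
    rw [← hnn, div_self pn.ne']
  have hI : π.extInfo (MM eX eY δ G) =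
      (∑ τ, ∑ x, ∑ y, MM eX eY δ G x y * π.prob x y τ *
        Real.log (π.prob x y τ / ∑ x', ∑ y', MM eX eY δ G x' y' * π.prob x' y' τ)) /
        Real.log 2 := by
    rw [Protocol.extInfo, sum_div]
    have : ∀ x, ∑ y, ∑ τ, MM eX eY δ G x y * π.prob x y τ *
        Real.logb 2 (π.prob x y τ / ∑ x', ∑ y', MM eX eY δ G x' y' * π.prob x' y' τ) =
        ∑ τ, ∑ y, MM eX eY δ G x y * π.prob x y τ *
        Real.logb 2 (π.prob x y τ / ∑ x', ∑ y', MM eX eY δ G x' y' * π.prob x' y' τ) :=
      fun x => sum_comm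
    simp only [this]
    rw [sum_comm]
    refine sum_congr rfl fun τ _ => ?_
    rw [sum_div]
    refine sum_congr rfl fun x _ => ?_
    rw [sum_div]
    refine sum_congr rfl fun y _ => ?_
    rw [Real.logb]; ring
  rw [hI]
  apply div_le_div_of_nonneg_right _ l2.le
  refine le_trans (le_of_eq ?_) (sum_le_sum fun τ _ => key τ)
  rw [sum_sub_distrib, ← mul_sum, ← sum_div, sum_add_distrib, sum_add_distrib, hd, hd,
    ho false true (by decide), ho true false (by decide)]
  field_simp
  ring

end Pool.Agent.R564.Ext
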