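import Pool.Agent.R564.ExtBasic

set_option autoImplicit false

open Finset

namespace Pool.Agent.R564.Ext

namespace Protocol

variable {X Y O : Type}

/-- A bit, as a degenerate probability. -/
noncomputable def bit (b : Bool) : Set.Icc (0 : ℝ) 1 :=
  if b then ⟨1, by norm_num, le_rfl⟩ else ⟨0, le_rfl, zero_le_one⟩

theorem bit_true : ((bit true : Set.Icc (0 : ℝ) 1) : ℝ) = 1 := by simp [bit]
theorem bit_false : ((bit false : Set.Icc (0 : ℝ) 1) : ℝ) = 0 := by simp [bit]

/-- On the inputs `x`, `y` the protocol always outputs `o`. -/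
def Correct (π : Protocol X Y O) (x : X) (y : Y) (o : O) : Prop :=
  ∀ τ, π.prob x y τ ≠ 0 → π.out τ = o

theorem correct_leaf (x : X) (y : Y) (o : O) : (leaf o : Protocol X Y O).Correct x y o :=
  fun _ _ => rfl

/-- Alice sends the bit `f x`. -/
noncomputable def sayA (f : X → Bool) (t₀ t₁ : Protocol X Y O) : Protocol X Y O :=
  alice (fun x => bit (f x)) t₀ t₁

/-- Bob sends the bit `f y`. -/
noncomputable def sayB (f : Y → Bool) (t₀ t₁ : Protocol X Y O) : Protocol X Y O :=
  bob (fun y => bit (f y)) t₀ t₁

theorem correct_sayA (f : X → Bool) (t : Bool → Protocol X Y O) (x : X) (y : Y) (o : O)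
    (h : (t (f x)).Correct x y o) : (sayA f (t false) (t true)).Correct x y o := by
  rintro (τ | τ) hp
  · simp only [sayA, prob, Sum.elim_inl] at hp
    rcases Bool.eq_false_or_eq_true (f x) with hf | hf
    · rw [hf, bit_true] at hp; simp at hp
    · rw [hf] at h
      exact h τ (right_ne_zero_of_mul hp)
  · simp only [sayA, prob, Sum.elim_inr] at hp
    rcases Bool.eq_false_or_eq_true (f x) with hf | hf
    · rw [hf] at h
      exact h τ (right_ne_zero_of_mul hp)
    · rw [hf, bit_false] at hp; simp at hp

theorem correct_sayB (f : Y → Bool) (t : Bool → Protocol X Y O) (x : X) (y : Y) (o : O)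
    (h : (t (f y)).Correct x y o) : (sayB f (t false) (t true)).Correct x y o := by
  rintro (τ | τ) hp
  · simp only [sayB, prob, Sum.elim_inl] at hp
    rcases Bool.eq_false_or_eq_true (f y) with hf | hf
    · rw [hf, bit_true] at hp; simp at hp
    · rw [hf] at h
      exact h τ (right_ne_zero_of_mul hp)
  · simp only [sayB, prob, Sum.elim_inr] at hp
    rcases Bool.eq_false_or_eq_true (f y) with hf | hf
    · rw [hf] at h
      exact h τ (right_ne_zero_of_mul hp)
    · rw [hf, bit_false] at hp; simp at hp

theorem cost_sayA (f : X → Bool) (t : Bool → Protocol X Y O) (x : X) (y : Y) :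
    (sayA f (t false) (t true)).cost x y = 1 + (t (f x)).cost x y := by
  simp only [sayA, cost]
  rcases Bool.eq_false_or_eq_true (f x) with hf | hf
  · rw [hf, bit_true]; ring
  · rw [hf, bit_false]; ring

theorem cost_sayB (f : Y → Bool) (t : Bool → Protocol X Y O) (x : X) (y : Y) :
    (sayB f (t false) (t true)).cost x y = 1 + (t (f y)).cost x y := by
  simp only [sayB, cost]
  rcases Bool.eq_false_or_eq_true (f y) with hf | hf
  · rw [hf, bit_true]; ring
  · rw [hf, bit_false]; ring

/-- Bob sends the bit `f y`, and the protocol continues with `t (f y)`. -/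
noncomputable def askB (f : Y → Bool) (t : Bool → Protocol X Y O) : Protocol X Y O :=
  sayB f (t false) (t true)

theorem correct_askB (f : Y → Bool) (t : Bool → Protocol X Y O) (x : X) (y : Y) (o : O)
    (h : (t (f y)).Correct x y o) : (askB f t).Correct x y o :=
  correct_sayB f t x y o h

theorem cost_askB (f : Y → Bool) (t : Bool → Protocol X Y O) (x : X) (y : Y) :
    (askB f t).cost x y = 1 + (t (f y)).cost x y :=
  cost_sayB f t x y

/-- Alice can send a string of `t` bits. -/
theorem exists_sendA_fin (t : ℕ) : ∀ (f : X → Fin t → Bool) (g : (Fin t → Bool) → Protocol X Y O),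
    ∃ π : Protocol X Y O, ∀ x y, (∀ o, (g (f x)).Correct x y o → π.Correct x y o) ∧
      π.cost x y = t + (g (f x)).cost x y := by
  induction t with
  | zero =>
    intro f g
    refine ⟨g Fin.elim0, fun x y => ?_⟩
    have : f x = Fin.elim0 := funext fun i => i.elim0
    rw [this]
    exact ⟨fun o h => h, by simp⟩
  | succ t ih =>
    intro f g
    choose π hπ using fun b : Bool =>
      ih (fun x => Fin.tail (f x)) (fun s => g (Fin.cons b s))
    refine ⟨sayA (fun x => f x 0) (π false) (π true), fun x y => ⟨fun o h => ?_, ?_⟩⟩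
    · apply correct_sayA
      apply (hπ (f x 0) x y).1
      rw [Fin.cons_self_tail]; exact h
    · rw [cost_sayA, (hπ (f x 0) x y).2, Fin.cons_self_tail]
      push_cast; ring

/-- Bob can send a string of `t` bits. -/
theorem exists_sendB_fin (t : ℕ) : ∀ (f : Y → Fin t → Bool) (g : (Fin t → Bool) → Protocol X Y O),
    ∃ π : Protocol X Y O, ∀ x y, (∀ o, (g (f y)).Correct x y o → π.Correct x y o) ∧
      π.cost x y = t + (g (f y)).cost x y := by
  induction t with
  | zero =>
    intro f g
    refine ⟨g Fin.elim0, fun x y => ?_⟩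
    have : f y = Fin.elim0 := funext fun i => i.elim0
    rw [this]
    exact ⟨fun o h => h, by simp⟩
  | succ t ih =>
    intro f g
    choose π hπ using fun b : Bool =>
      ih (fun y => Fin.tail (f y)) (fun s => g (Fin.cons b s))
    refine ⟨sayB (fun y => f y 0) (π false) (π true), fun x y => ⟨fun o h => ?_, ?_⟩⟩
    · apply correct_sayB
      apply (hπ (f y 0) x y).1
      rw [Fin.cons_self_tail]; exact h
    · rw [cost_sayB, (hπ (f y 0) x y).2, Fin.cons_self_tail]
      push_cast; ring

/-- Alice can send an element of a set of size at most `2 ^ t` with `t` bits. -/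
theorem exists_sendA {T : Type} [Fintype T] [Nonempty T] (t : ℕ) (h : Fintype.card T ≤ 2 ^ t)
    (f : X → T) (g : T → Protocol X Y O) :
    ∃ π : Protocol X Y O, ∀ x y, (∀ o, (g (f x)).Correct x y o → π.Correct x y o) ∧
      π.cost x y = t + (g (f x)).cost x y := by
  obtain ⟨e⟩ : Nonempty (T ↪ (Fin t → Bool)) :=
    Function.Embedding.nonempty_of_card_le (by simpa using h)
  obtain ⟨π, hπ⟩ := exists_sendA_fin t (fun x => e (f x))
    (fun s => g (Function.invFun e s))
  refine ⟨π, fun x y => ?_⟩
  have := hπ x y
  rw [Function.leftInverse_invFun e.injective] at this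
  exact this

/-- Bob can send an element of a set of size at most `2 ^ t` with `t` bits. -/
theorem exists_sendB {T : Type} [Fintype T] [Nonempty T] (t : ℕ) (h : Fintype.card T ≤ 2 ^ t)
    (f : Y → T) (g : T → Protocol X Y O) :
    ∃ π : Protocol X Y O, ∀ x y, (∀ o, (g (f y)).Correct x y o → π.Correct x y o) ∧
      π.cost x y = t + (g (f y)).cost x y := by
  obtain ⟨e⟩ : Nonempty (T ↪ (Fin t → Bool)) :=
    Function.Embedding.nonempty_of_card_le (by simpa using h)
  obtain ⟨π, hπ⟩ := exists_sendB_fin t (fun y => e (f y))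
    (fun s => g (Function.invFun e s))
  refine ⟨π, fun x y => ?_⟩
  have := hπ x y
  rw [Function.leftInverse_invFun e.injective] at this
  exact this

end Protocol

end Pool.Agent.R564.Ext
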