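import Pool.Agent.R564.ExtAvg

set_option autoImplicit false

open Finset

namespace Pool.Agent.R564.Ext

namespace Protocol

variable {X Y O X' Y' O' : Type}

/-- Sequential composition: run `π` on (a part of) the inputs, then continue depending on its
output. -/
theorem exists_bind (π : Protocol X Y O) (f : X' → X) (g : Y' → Y) (k : O → Protocol X' Y' O') :
    ∃ π' : Protocol X' Y' O', ∀ x y o, π.Correct (f x) (g y) o →
      (∀ o', (k o).Correct x y o' → π'.Correct x y o') ∧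
      π'.cost x y = π.cost (f x) (g y) + (k o).cost x y := by
  induction π with
  | leaf o₀ =>
    refine ⟨k o₀, fun x y o h => ?_⟩
    have : o₀ = o := h () (by simp [prob])
    subst this
    exact ⟨fun o' h' => h', by simp [cost]⟩
  | alice p t₀ t₁ h₀ h₁ =>
    obtain ⟨π₀, hπ₀⟩ := h₀
    obtain ⟨π₁, hπ₁⟩ := h₁
    refine ⟨alice (fun x => p (f x)) π₀ π₁, fun x y o h => ?_⟩
    have c0 : (1 - (p (f x) : ℝ)) ≠ 0 → t₀.Correct (f x) (g y) o := fun hne τ hτ =>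
      h (Sum.inl τ) (by simp only [prob, Sum.elim_inl]; exact mul_ne_zero hne hτ)
    have c1 : ((p (f x) : ℝ)) ≠ 0 → t₁.Correct (f x) (g y) o := fun hne τ hτ =>
      h (Sum.inr τ) (by simp only [prob, Sum.elim_inr]; exact mul_ne_zero hne hτ)
    refine ⟨fun o' ho' => ?_, ?_⟩
    · rintro (τ | τ) hτ
      · simp only [prob, Sum.elim_inl] at hτ
        exact (hπ₀ x y o (c0 (left_ne_zero_of_mul hτ))).1 o' ho' τ (right_ne_zero_of_mul hτ)
      · simp only [prob, Sum.elim_inr] at hτ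
        exact (hπ₁ x y o (c1 (left_ne_zero_of_mul hτ))).1 o' ho' τ (right_ne_zero_of_mul hτ)
    · simp only [cost]
      have e0 : (1 - (p (f x) : ℝ)) * π₀.cost x y =
          (1 - (p (f x) : ℝ)) * (t₀.cost (f x) (g y) + (k o).cost x y) := by
        by_cases hz : (1 - (p (f x) : ℝ)) = 0
        · rw [hz]; ring
        · rw [(hπ₀ x y o (c0 hz)).2]
      have e1 : ((p (f x) : ℝ)) * π₁.cost x y =
          ((p (f x) : ℝ)) * (t₁.cost (f x) (g y) + (k o).cost x y) := by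
        by_cases hz : ((p (f x) : ℝ)) = 0
        · rw [hz]; ring
        · rw [(hπ₁ x y o (c1 hz)).2]
      rw [e0, e1]; ring
  | bob p t₀ t₁ h₀ h₁ =>
    obtain ⟨π₀, hπ₀⟩ := h₀
    obtain ⟨π₁, hπ₁⟩ := h₁
    refine ⟨bob (fun y => p (g y)) π₀ π₁, fun x y o h => ?_⟩
    have c0 : (1 - (p (g y) : ℝ)) ≠ 0 → t₀.Correct (f x) (g y) o := fun hne τ hτ =>
      h (Sum.inl τ) (by simp only [prob, Sum.elim_inl]; exact mul_ne_zero hne hτ)
    have c1 : ((p (g y) : ℝ)) ≠ 0 → t₁.Correct (f x) (g y) o := fun hne τ hτ =>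
      h (Sum.inr τ) (by simp only [prob, Sum.elim_inr]; exact mul_ne_zero hne hτ)
    refine ⟨fun o' ho' => ?_, ?_⟩
    · rintro (τ | τ) hτ
      · simp only [prob, Sum.elim_inl] at hτ
        exact (hπ₀ x y o (c0 (left_ne_zero_of_mul hτ))).1 o' ho' τ (right_ne_zero_of_mul hτ)
      · simp only [prob, Sum.elim_inr] at hτ
        exact (hπ₁ x y o (c1 (left_ne_zero_of_mul hτ))).1 o' ho' τ (right_ne_zero_of_mul hτ)
    · simp only [cost]
      have e0 : (1 - (p (g y) : ℝ)) * π₀.cost x y =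
          (1 - (p (g y) : ℝ)) * (t₀.cost (f x) (g y) + (k o).cost x y) := by
        by_cases hz : (1 - (p (g y) : ℝ)) = 0
        · rw [hz]; ring
        · rw [(hπ₀ x y o (c0 hz)).2]
      have e1 : ((p (g y) : ℝ)) * π₁.cost x y =
          ((p (g y) : ℝ)) * (t₁.cost (f x) (g y) + (k o).cost x y) := by
        by_cases hz : ((p (g y) : ℝ)) = 0
        · rw [hz]; ring
        · rw [(hπ₁ x y o (c1 hz)).2]
      rw [e0, e1]; ring
  | coin p t₀ t₁ h₀ h₁ =>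
    obtain ⟨π₀, hπ₀⟩ := h₀
    obtain ⟨π₁, hπ₁⟩ := h₁
    refine ⟨coin p π₀ π₁, fun x y o h => ?_⟩
    have c0 : (1 - (p : ℝ)) ≠ 0 → t₀.Correct (f x) (g y) o := fun hne τ hτ =>
      h (Sum.inl τ) (by simp only [prob, Sum.elim_inl]; exact mul_ne_zero hne hτ)
    have c1 : ((p : ℝ)) ≠ 0 → t₁.Correct (f x) (g y) o := fun hne τ hτ =>
      h (Sum.inr τ) (by simp only [prob, Sum.elim_inr]; exact mul_ne_zero hne hτ)
    refine ⟨fun o' ho' => ?_, ?_⟩
    · rintro (τ | τ) hτ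
      · simp only [prob, Sum.elim_inl] at hτ
        exact (hπ₀ x y o (c0 (left_ne_zero_of_mul hτ))).1 o' ho' τ (right_ne_zero_of_mul hτ)
      · simp only [prob, Sum.elim_inr] at hτ
        exact (hπ₁ x y o (c1 (left_ne_zero_of_mul hτ))).1 o' ho' τ (right_ne_zero_of_mul hτ)
    · simp only [cost]
      have e0 : (1 - (p : ℝ)) * π₀.cost x y =
          (1 - (p : ℝ)) * (t₀.cost (f x) (g y) + (k o).cost x y) := by
        by_cases hz : (1 - (p : ℝ)) = 0
        · rw [hz]; ring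
        · rw [(hπ₀ x y o (c0 hz)).2]
      have e1 : ((p : ℝ)) * π₁.cost x y =
          ((p : ℝ)) * (t₁.cost (f x) (g y) + (k o).cost x y) := by
        by_cases hz : ((p : ℝ)) = 0
        · rw [hz]; ring
        · rw [(hπ₁ x y o (c1 hz)).2]
      rw [e0, e1]; ring

/-- Every function on finite sets has a zero-error protocol. -/
theorem exists_zeroError [Fintype X] [Fintype Y] [Nonempty X] [Nonempty Y] (f : X → Y → O) :
    ∃ π : Protocol X Y O, π.ZeroError f := by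
  classical
  choose πb hπb using fun x : X => exists_sendB (X := X) (Y := Y) (O := O) (T := Y)
    (Fintype.card Y) Nat.lt_two_pow_self.le (fun y => y) (fun y => leaf (f x y))
  obtain ⟨π, hπ⟩ := exists_sendA (X := X) (Y := Y) (O := O) (T := X)
    (Fintype.card X) Nat.lt_two_pow_self.le (fun x => x) πb
  refine ⟨π, fun x y τ hτ => ?_⟩
  exact (hπ x y).1 _ ((hπb x x y).1 _ (correct_leaf _ _ _)) τ hτ

end Protocol

open Protocol

section sub

variable {X Y : Type} [Fintype X] [Fintype Y]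

omit [Fintype X] [Fintype Y] in
/-- Running a protocol for `F^a` and then one for `F^b`. -/
theorem exists_append (F : X → Y → Bool) (a b : ℕ)
    (π₁ : Protocol (Fin a → X) (Fin a → Y) (Fin a → Bool))
    (π₂ : Protocol (Fin b → X) (Fin b → Y) (Fin b → Bool))
    (h₁ : π₁.ZeroError (tensor F a)) (h₂ : π₂.ZeroError (tensor F b)) :
    ∃ π : Protocol (Fin (a + b) → X) (Fin (a + b) → Y) (Fin (a + b) → Bool),
      π.ZeroError (tensor F (a + b)) ∧ ∀ x y, π.cost x y =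
        π₁.cost (fun i => x (Fin.castAdd b i)) (fun i => y (Fin.castAdd b i)) +
        π₂.cost (fun i => x (Fin.natAdd a i)) (fun i => y (Fin.natAdd a i)) := by
  choose k hk using fun o₁ : Fin a → Bool =>
    exists_bind (X' := Fin (a + b) → X) (Y' := Fin (a + b) → Y) (O' := Fin (a + b) → Bool) π₂
      (fun x i => x (Fin.natAdd a i)) (fun y i => y (Fin.natAdd a i))
      (fun o₂ => leaf (Fin.append o₁ o₂))
  obtain ⟨π, hπ⟩ := exists_bind (X' := Fin (a + b) → X) (Y' := Fin (a + b) → Y)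
    (O' := Fin (a + b) → Bool) π₁
    (fun x i => x (Fin.castAdd b i)) (fun y i => y (Fin.castAdd b i)) k
  refine ⟨π, fun x y => ?_, fun x y => ?_⟩
  · have e1 := hπ x y _ (h₁ (fun i => x (Fin.castAdd b i)) (fun i => y (Fin.castAdd b i)))
    have e2 := hk (tensor F a (fun i => x (Fin.castAdd b i)) (fun i => y (Fin.castAdd b i))) x y _
      (h₂ (fun i => x (Fin.natAdd a i)) (fun i => y (Fin.natAdd a i)))
    have e3 := e1.1 _ (e2.1 _ (correct_leaf _ _ _))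
    have e4 : Fin.append (tensor F a (fun i => x (Fin.castAdd b i)) (fun i => y (Fin.castAdd b i)))
        (tensor F b (fun i => x (Fin.natAdd a i)) (fun i => y (Fin.natAdd a i))) =
        tensor F (a + b) x y := by
      funext i
      refine Fin.addCases (fun i => ?_) (fun i => ?_) i
      · simp [tensor]
      · simp [tensor]
    rw [e4] at e3
    exact e3
  · have e1 := hπ x y _ (h₁ (fun i => x (Fin.castAdd b i)) (fun i => y (Fin.castAdd b i)))
    have e2 := hk (tensor F a (fun i => x (Fin.castAdd b i)) (fun i => y (Fin.castAdd b i))) x y _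
      (h₂ (fun i => x (Fin.natAdd a i)) (fun i => y (Fin.natAdd a i)))
    rw [e1.2, e2.2]
    simp [cost]

theorem avg_append (μ : X → Y → ℝ) (hμ : IsDist μ) (a b : ℕ)
    (f : (Fin a → X) → (Fin a → Y) → ℝ) (g : (Fin b → X) → (Fin b → Y) → ℝ) :
    ∑ x : Fin (a + b) → X, ∑ y : Fin (a + b) → Y, (∏ i, μ (x i) (y i)) *
      (f (fun i => x (Fin.castAdd b i)) (fun i => y (Fin.castAdd b i)) +
        g (fun i => x (Fin.natAdd a i)) (fun i => y (Fin.natAdd a i))) =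
    (∑ x, ∑ y, (∏ i, μ (x i) (y i)) * f x y) + ∑ x, ∑ y, (∏ i, μ (x i) (y i)) * g x y := by
  classical
  rw [← Equiv.sum_comp (Fin.appendEquiv a b)]
  have h1 : ∀ x : (Fin a → X) × (Fin b → X), ∑ y : Fin (a + b) → Y,
      (∏ i, μ ((Fin.appendEquiv a b) x i) (y i)) *
      (f (fun i => (Fin.appendEquiv a b) x (Fin.castAdd b i)) (fun i => y (Fin.castAdd b i)) +
        g (fun i => (Fin.appendEquiv a b) x (Fin.natAdd a i)) (fun i => y (Fin.natAdd a i))) =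
      ∑ y : (Fin a → Y) × (Fin b → Y), ((∏ i, μ (x.1 i) (y.1 i)) * (∏ i, μ (x.2 i) (y.2 i))) *
        (f x.1 y.1 + g x.2 y.2) := by
    intro x
    rw [← Equiv.sum_comp (Fin.appendEquiv a b)]
    refine sum_congr rfl fun y _ => ?_
    rw [Fin.prod_univ_add]
    simp only [Fin.appendEquiv_apply, Fin.append_left, Fin.append_right]
  simp only [h1]
  rw [Fintype.sum_prod_type]
  simp_rw [Fintype.sum_prod_type]
  have s1 : ∑ x : Fin a → X, ∑ y : Fin a → Y, ∏ i, μ (x i) (y i) = 1 := sum_dist_one a μ hμ.2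
  have s2 : ∑ x : Fin b → X, ∑ y : Fin b → Y, ∏ i, μ (x i) (y i) = 1 := sum_dist_one b μ hμ.2
  have e : ∀ (x₁ : Fin a → X) (x₂ : Fin b → X) (y₁ : Fin a → Y) (y₂ : Fin b → Y),
      ((∏ i, μ (x₁ i) (y₁ i)) * (∏ i, μ (x₂ i) (y₂ i))) * (f x₁ y₁ + g x₂ y₂) =
      ((∏ i, μ (x₁ i) (y₁ i)) * f x₁ y₁) * (∏ i, μ (x₂ i) (y₂ i)) +
      (∏ i, μ (x₁ i) (y₁ i)) * ((∏ i, μ (x₂ i) (y₂ i)) * g x₂ y₂) := by
    intros; ring
  have c : ∀ (x₁ : Fin a → X), ∑ x₂ : Fin b → X, ∑ y₁ : Fin a → Y, ∑ y₂ : Fin b → Y,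
      ((∏ i, μ (x₁ i) (y₁ i)) * (∏ i, μ (x₂ i) (y₂ i))) * (f x₁ y₁ + g x₂ y₂) =
      ∑ y₁ : Fin a → Y, ((∏ i, μ (x₁ i) (y₁ i)) * f x₁ y₁) + (∑ y₁ : Fin a → Y,
        (∏ i, μ (x₁ i) (y₁ i))) * ∑ x₂ : Fin b → X, ∑ y₂ : Fin b → Y,
        ((∏ i, μ (x₂ i) (y₂ i)) * g x₂ y₂) := by
    intro x₁
    rw [sum_comm, sum_mul, ← sum_add_distrib]
    refine sum_congr rfl fun y₁ _ => ?_
    simp only [e, sum_add_distrib, ← mul_sum, s2, mul_one]
  simp only [c, sum_add_distrib, ← sum_mul, s1, one_mul]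

theorem avgCC_bddBelow (F : X → Y → Bool) (μ : X → Y → ℝ) (hμ : ∀ x y, 0 ≤ μ x y) (n : ℕ) :
    ∀ r ∈ {r | ∃ π : Protocol (Fin n → X) (Fin n → Y) (Fin n → Bool), π.ZeroError (tensor F n) ∧
    r = ∑ x, ∑ y, (∏ i, μ (x i) (y i)) * π.cost x y}, 0 ≤ r := by
  rintro r ⟨π, _, rfl⟩
  exact sum_nonneg fun x _ => sum_nonneg fun y _ =>
    mul_nonneg (prod_nonneg fun i _ => hμ _ _) (π.cost_nonneg x y)

theorem avgCC_nonneg (F : X → Y → Bool) (μ : X → Y → ℝ) (hμ : ∀ x y, 0 ≤ μ x y) (n : ℕ) :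
    0 ≤ avgCC F μ n :=
  Real.sInf_nonneg (avgCC_bddBelow F μ hμ n)

theorem avgCC_le (F : X → Y → Bool) (μ : X → Y → ℝ) (hμ : ∀ x y, 0 ≤ μ x y) (n : ℕ)
    (π : Protocol (Fin n → X) (Fin n → Y) (Fin n → Bool)) (hπ : π.ZeroError (tensor F n)) :
    avgCC F μ n ≤ ∑ x, ∑ y, (∏ i, μ (x i) (y i)) * π.cost x y :=
  csInf_le ⟨0, fun r hr => avgCC_bddBelow F μ hμ n r hr⟩ ⟨π, hπ, rfl⟩

theorem avgCC_subadditive [Nonempty X] [Nonempty Y] (F : X → Y → Bool) (μ : X → Y → ℝ)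
    (hμ : IsDist μ) : Subadditive (avgCC F μ) := by
  intro a b
  have key : ∀ r₁ ∈ {r | ∃ π : Protocol (Fin a → X) (Fin a → Y) (Fin a → Bool),
      π.ZeroError (tensor F a) ∧ r = ∑ x, ∑ y, (∏ i, μ (x i) (y i)) * π.cost x y},
      ∀ r₂ ∈ {r | ∃ π : Protocol (Fin b → X) (Fin b → Y) (Fin b → Bool),
      π.ZeroError (tensor F b) ∧ r = ∑ x, ∑ y, (∏ i, μ (x i) (y i)) * π.cost x y},
      avgCC F μ (a + b) ≤ r₁ + r₂ := by
    rintro r₁ ⟨π₁, h₁, rfl⟩ r₂ ⟨π₂, h₂, rfl⟩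
    obtain ⟨π, hπ, hc⟩ := exists_append F a b π₁ π₂ h₁ h₂
    refine (avgCC_le F μ hμ.1 (a + b) π hπ).trans (le_of_eq ?_)
    rw [← avg_append μ hμ a b]
    simp only [hc]
  have n₁ : {r | ∃ π : Protocol (Fin a → X) (Fin a → Y) (Fin a → Bool),
      π.ZeroError (tensor F a) ∧ r = ∑ x, ∑ y, (∏ i, μ (x i) (y i)) * π.cost x y}.Nonempty := by
    obtain ⟨π, hπ⟩ := exists_zeroError (tensor F a)
    exact ⟨_, π, hπ, rfl⟩
  have n₂ : {r | ∃ π : Protocol (Fin b → X) (Fin b → Y) (Fin b → Bool),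
      π.ZeroError (tensor F b) ∧ r = ∑ x, ∑ y, (∏ i, μ (x i) (y i)) * π.cost x y}.Nonempty := by
    obtain ⟨π, hπ⟩ := exists_zeroError (tensor F b)
    exact ⟨_, π, hπ, rfl⟩
  have h1 : ∀ r₁ ∈ {r | ∃ π : Protocol (Fin a → X) (Fin a → Y) (Fin a → Bool),
      π.ZeroError (tensor F a) ∧ r = ∑ x, ∑ y, (∏ i, μ (x i) (y i)) * π.cost x y},
      avgCC F μ (a + b) - r₁ ≤ avgCC F μ b := by
    intro r₁ hr₁
    exact le_csInf n₂ fun r₂ hr₂ => by have := key r₁ hr₁ r₂ hr₂; linarith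
  have h2 : avgCC F μ (a + b) - avgCC F μ b ≤ avgCC F μ a :=
    le_csInf n₁ fun r₁ hr₁ => by have := h1 r₁ hr₁; linarith
  linarith

end sub

end Pool.Agent.R564.Ext
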